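import Pool.Agent.Q187.HN.Gen

/-! # The case of a rank-one convex tangent function -/

set_option autoImplicit false

namespace Pool.Agent.Q187.HN

open Set Filter Topology
open Pool.Agent.Q187.VI

theorem bern {r v : ℝ} (hr : 0 ≤ r) (hv : 0 < v) : 1 - r * (v - 1) ≤ v ^ (-r) := by
  rw [Real.rpow_def_of_pos hv]
  have h1 := Real.add_one_le_exp (Real.log v * -r)
  have h2 := Real.log_le_sub_one_of_pos hv
  have h3 := mul_le_mul_of_nonneg_left h2 hr
  linarith

theorem alpha {q A B s v : ℝ} (hq : 0 < q) (h1 : -((q + 2) * B) ≤ q * A) (h2 : q * A ≤ (q + 2) * B)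
    (hv : 0 < v) (hsv : v ≤ s) :
    (q + 1) * A + (q + 2) * B * s - q * A * v - (q + 1) * B * s * v
      ≤ max 0 (v ^ (-q) * (A + B * (s / v))) := by
  have hB : 0 ≤ B := by nlinarith
  have hs : 0 < s := by linarith
  set X : ℝ := v ^ (-(q + 1)) with hX
  have hXb : q + 2 - (q + 1) * v ≤ X := by
    have := bern (r := q + 1) (by linarith) hv
    rw [← hX] at this
    linarith
  have hvX : v ^ (-q) = v * X := by
    have : v ^ (-q) = v ^ (1 + -(q + 1)) := by congr 1; ring
    rw [this, Real.rpow_add hv, Real.rpow_one]
  have hvXb : q + 1 - q * v ≤ v * X := by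
    have := bern (r := q) hq.le hv
    rw [hvX] at this
    linarith
  have hT : v ^ (-q) * (A + B * (s / v)) = (A * v + B * s) * X := by
    rw [hvX]; field_simp
  rw [hT]
  rcases le_or_gt 0 A with hA | hA
  · refine le_max_of_le_right ?_
    have e1 : 0 ≤ B * s * (X - (q + 2 - (q + 1) * v)) :=
      mul_nonneg (by positivity) (by linarith)
    have e2 : 0 ≤ A * (v * X - (q + 1 - q * v)) := mul_nonneg hA (by linarith)
    nlinarith
  · rcases le_or_gt 0 (A * v + B * s) with hT0 | hT0
    · refine le_max_of_le_right ?_
      have e1 : 0 ≤ (A * v + B * s) * (X - (q + 2 - (q + 1) * v)) :=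
        mul_nonneg hT0 (by linarith)
      have e2 : 0 ≤ -A * ((q + 1) * (1 - v) ^ 2) :=
        mul_nonneg (by linarith) (by positivity)
      nlinarith
    · refine le_max_of_le_left ?_
      rcases le_or_gt 0 (q + 2 - (q + 1) * v) with h3 | h3
      · have e1 : 0 ≤ (-(A * v) - B * s) * (q + 2 - (q + 1) * v) :=
          mul_nonneg (by linarith) h3
        have e2 : 0 ≤ -A * ((q + 1) * (1 - v) ^ 2) :=
          mul_nonneg (by linarith) (by positivity)
        nlinarith
      · have hBp : 0 < B := by
          by_contra hcon
          have : B = 0 := le_antisymm (not_lt.1 hcon) hB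
          rw [this] at h1
          nlinarith
        have hAB : A + B < 0 := by
          by_contra hcon
          rw [not_lt] at hcon
          have : A * v + B * s = (A + B) * v + B * (s - v) := by ring
          have h4 : 0 ≤ (A + B) * v + B * (s - v) :=
            add_nonneg (mul_nonneg hcon hv.le) (mul_nonneg hB (by linarith))
          linarith
        have e1 : 0 ≤ B * (s - v) * -(q + 2 - (q + 1) * v) :=
          mul_nonneg (mul_nonneg hB (by linarith)) (by linarith)
        have e2 : (q + 1) * A - q * A * v + B * v * (q + 2 - (q + 1) * v) ≤ 0 := by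
          have h5 : 0 ≤ (-A - B) * ((q + 2) ^ 2 * B + q ^ 2 * A) := by
            refine mul_nonneg (by linarith) ?_
            have : -(q * (q + 2) * B) ≤ q ^ 2 * A := by nlinarith
            nlinarith
          have h6 : -(4 * (q + 1) * B) *
              ((q + 1) * A - q * A * v + B * v * (q + 2 - (q + 1) * v))
              = (2 * (q + 1) * B * v - ((q + 2) * B - q * A)) ^ 2
                + (-A - B) * ((q + 2) ^ 2 * B + q ^ 2 * A) := by ring
          have h7 : 0 ≤ -(4 * (q + 1) * B) *
              ((q + 1) * A - q * A * v + B * v * (q + 2 - (q + 1) * v)) := by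
            rw [h6]; positivity
          by_contra hcon
          rw [not_le] at hcon
          have h8 : 0 < 4 * (q + 1) * B := by positivity
          nlinarith
        nlinarith

end Pool.Agent.Q187.HN
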