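import Pool.Agent.Q187.HN.Al

/-! # Supporting functions from rank-one lines -/

set_option autoImplicit false

namespace Pool.Agent.Q187.HN

open Set Filter Topology
open Pool.Agent.Y273.VI (RCp)
open Pool.Agent.Q187.VI

/-- comparison of slopes -/
theorem slope {ψ R : ℝ → ℝ} {J : Set ℝ} (hc : ConvexOn ℝ J ψ) {m0 m' d : ℝ} (h0 : m0 ∈ J)
    (hm' : m' ∈ J) (hd : HasDerivAt R d m0) (hR0 : R m0 = ψ m0)
    (hge : ∀ ε : ℝ, 0 < ε → ε < 1 → m0 + ε * (m' - m0) ∈ J →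
      R (m0 + ε * (m' - m0)) ≤ ψ (m0 + ε * (m' - m0))) :
    ψ m0 + d * (m' - m0) ≤ ψ m' := by
  have h1 : HasDerivAt (fun ε : ℝ => R (m0 + ε * (m' - m0))) (d * (m' - m0)) 0 := by
    have h2 : HasDerivAt (fun ε : ℝ => m0 + ε * (m' - m0)) (m' - m0) 0 := by
      have := ((hasDerivAt_id (0 : ℝ)).mul_const (m' - m0)).const_add m0
      exact this.congr_deriv (one_mul _)
    have h3 : HasDerivAt R d (m0 + 0 * (m' - m0)) := by
      rw [zero_mul, add_zero]; exact hd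
    exact h3.comp 0 h2
  have h2 := h1.tendsto_slope_zero_right
  have h3 : d * (m' - m0) ≤ ψ m' - ψ m0 := by
    refine le_of_tendsto h2 ?_
    have hin : Ioo (0 : ℝ) 1 ∈ 𝓝[>] (0 : ℝ) := Ioo_mem_nhdsGT one_pos
    filter_upwards [hin] with ε hε
    have hz := hc.2 h0 hm' (show 0 ≤ 1 - ε by linarith [hε.2]) hε.1.le (by ring)
    have hzin := hc.1 h0 hm' (show 0 ≤ 1 - ε by linarith [hε.2]) hε.1.le (by ring)
    simp only [smul_eq_mul] at hz hzin
    have e1 : (1 - ε) * m0 + ε * m' = m0 + ε * (m' - m0) := by ring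
    rw [e1] at hz hzin
    have h5 := hge ε hε.1 hε.2 hzin
    rw [zero_add, zero_mul, add_zero, smul_eq_mul, inv_mul_le_iff₀ hε.1, hR0]
    linarith
  linarith

/-- rank-one lines on which `|u_zbar|` is the variable -/
theorem line_m {x0 y0 κ : ℝ} (hy0 : 0 ≤ y0) (hxy : y0 < x0) (hκ0 : 0 ≤ κ) (hκv : κ ≤ x0 - y0) :
    ∃ Fb H : ℂ × ℂ, ‖H.1‖ = ‖H.2‖ ∧
      (∀ m : ℝ, ‖(Fb + m • H).1‖
        = Real.sqrt (x0 ^ 2 + (κ + y0) * (m - 2 * y0) + (m - 2 * y0) ^ 2 / 4)) ∧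
      (∀ m : ℝ, ‖(Fb + m • H).2‖ = |m / 2|) ∧
      (∀ m : ℝ, Dc (Fb + m • H) = (x0 ^ 2 - y0 ^ 2) + κ * (m - 2 * y0)) ∧
      Dc Fb = (x0 ^ 2 - y0 ^ 2) - κ * (2 * y0) := by
  have hx0 : 0 < x0 := by linarith
  set ρ : ℝ := (κ + y0) / x0 with hρ
  have hρ0 : 0 ≤ ρ := by positivity
  have hρ1 : ρ ≤ 1 := by rw [hρ, div_le_one hx0]; linarith
  have hρx : ρ * x0 = κ + y0 := by rw [hρ]; field_simp
  set e : ℂ := ⟨ρ, Real.sqrt (1 - ρ ^ 2)⟩ with he
  have hen : Complex.normSq e = 1 := by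
    rw [he, Complex.normSq_mk, Real.mul_self_sqrt (by nlinarith)]
    ring
  set Fb : ℂ × ℂ := ((x0 : ℂ) - (y0 : ℂ) * e, 0) with hFb
  set H : ℂ × ℂ := (((1 / 2 : ℝ) : ℂ) * e, ((1 / 2 : ℝ) : ℂ)) with hH
  have hen1 : ‖e‖ = 1 := by
    have : ‖e‖ ^ 2 = 1 := by rw [← Complex.normSq_eq_norm_sq]; exact hen
    exact (sq_eq_sq₀ (norm_nonneg _) zero_le_one).1 (by rw [this]; norm_num)
  have hHn : ‖H.1‖ = ‖H.2‖ := by
    rw [hH]
    simp only [norm_mul, hen1, mul_one]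
  have hl1 : ∀ m : ℝ, (Fb + m • H).1 = (x0 : ℂ) + (((m - 2 * y0) / 2 : ℝ) : ℂ) * e := by
    intro m
    simp only [hFb, hH, Prod.fst_add, Prod.smul_fst, Complex.real_smul]
    push_cast
    ring
  have hl2 : ∀ m : ℝ, (Fb + m • H).2 = ((m / 2 : ℝ) : ℂ) := by
    intro m
    simp only [hFb, hH, Prod.snd_add, Prod.smul_snd, Complex.real_smul]
    push_cast
    ring
  have hn1 : ∀ m : ℝ, ‖(Fb + m • H).1‖ ^ 2
      = x0 ^ 2 + (κ + y0) * (m - 2 * y0) + (m - 2 * y0) ^ 2 / 4 := by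
    intro m
    rw [hl1, ← Complex.normSq_eq_norm_sq, Complex.normSq_apply]
    have hen' : e.re * e.re + e.im * e.im = 1 := by rw [← Complex.normSq_apply]; exact hen
    have her : e.re = ρ := rfl
    simp only [Complex.add_re, Complex.add_im, Complex.mul_re, Complex.mul_im,
      Complex.ofReal_re, Complex.ofReal_im, zero_mul, sub_zero, add_zero, zero_add]
    have hρx' : e.re * x0 = κ + y0 := by rw [her]; exact hρx
    linear_combination ((m - 2 * y0) / 2) ^ 2 * hen' + (m - 2 * y0) * hρx'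
  have hn2 : ∀ m : ℝ, ‖(Fb + m • H).2‖ = |m / 2| := by
    intro m
    rw [hl2, Complex.norm_real, Real.norm_eq_abs]
  have hDm : ∀ m : ℝ, Dc (Fb + m • H) = (x0 ^ 2 - y0 ^ 2) + κ * (m - 2 * y0) := by
    intro m
    have : Dc (Fb + m • H) = ‖(Fb + m • H).1‖ ^ 2 - ‖(Fb + m • H).2‖ ^ 2 := rfl
    rw [this, hn1, hn2, sq_abs]
    ring
  refine ⟨Fb, H, hHn, fun m => ?_, hn2, hDm, ?_⟩
  · rw [← hn1, Real.sqrt_sq (norm_nonneg _)]
  · have := hDm 0
    rw [zero_smul, add_zero] at this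
    rw [this]; ring

/-- rank-one lines on which `|u_z|` is the variable -/
theorem line_n {x0 y0 κ : ℝ} (hy0 : 0 < y0) (hκ0 : x0 - y0 ≤ κ) (hκv : κ ≤ x0 + y0) :
    ∃ Fb H : ℂ × ℂ, ‖H.1‖ = ‖H.2‖ ∧
      (∀ n : ℝ, ‖(Fb + n • H).1‖ = |n / 2|) ∧
      (∀ n : ℝ, ‖(Fb + n • H).2‖
        = Real.sqrt (y0 ^ 2 + (x0 - κ) * (n - 2 * x0) + (n - 2 * x0) ^ 2 / 4)) ∧
      (∀ n : ℝ, Dc (Fb + n • H) = (x0 ^ 2 - y0 ^ 2) + κ * (n - 2 * x0)) ∧
      Dc Fb = (x0 ^ 2 - y0 ^ 2) - κ * (2 * x0) := by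
  set ρ : ℝ := (x0 - κ) / y0 with hρ
  have hρ0 : -1 ≤ ρ := by rw [hρ, le_div_iff₀ hy0]; linarith
  have hρ1 : ρ ≤ 1 := by rw [hρ, div_le_one hy0]; linarith
  have hρx : ρ * y0 = x0 - κ := by rw [hρ]; field_simp
  set e : ℂ := ⟨ρ, Real.sqrt (1 - ρ ^ 2)⟩ with he
  have hen : Complex.normSq e = 1 := by
    rw [he, Complex.normSq_mk, Real.mul_self_sqrt (by nlinarith)]
    ring
  set Fb : ℂ × ℂ := (0, (y0 : ℂ) - (x0 : ℂ) * e) with hFb
  set H : ℂ × ℂ := (((1 / 2 : ℝ) : ℂ), ((1 / 2 : ℝ) : ℂ) * e) with hH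
  have hen1 : ‖e‖ = 1 := by
    have : ‖e‖ ^ 2 = 1 := by rw [← Complex.normSq_eq_norm_sq]; exact hen
    exact (sq_eq_sq₀ (norm_nonneg _) zero_le_one).1 (by rw [this]; norm_num)
  have hHn : ‖H.1‖ = ‖H.2‖ := by
    rw [hH]
    simp only [norm_mul, hen1, mul_one]
  have hl2 : ∀ n : ℝ, (Fb + n • H).2 = (y0 : ℂ) + (((n - 2 * x0) / 2 : ℝ) : ℂ) * e := by
    intro n
    simp only [hFb, hH, Prod.snd_add, Prod.smul_snd, Complex.real_smul]
    push_cast
    ring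
  have hl1 : ∀ n : ℝ, (Fb + n • H).1 = ((n / 2 : ℝ) : ℂ) := by
    intro n
    simp only [hFb, hH, Prod.fst_add, Prod.smul_fst, Complex.real_smul]
    push_cast
    ring
  have hn2 : ∀ n : ℝ, ‖(Fb + n • H).2‖ ^ 2
      = y0 ^ 2 + (x0 - κ) * (n - 2 * x0) + (n - 2 * x0) ^ 2 / 4 := by
    intro n
    rw [hl2, ← Complex.normSq_eq_norm_sq, Complex.normSq_apply]
    have hen' : e.re * e.re + e.im * e.im = 1 := by rw [← Complex.normSq_apply]; exact hen
    have her : e.re = ρ := rfl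
    simp only [Complex.add_re, Complex.add_im, Complex.mul_re, Complex.mul_im,
      Complex.ofReal_re, Complex.ofReal_im, zero_mul, sub_zero, add_zero, zero_add]
    have hρx' : e.re * y0 = x0 - κ := by rw [her]; exact hρx
    linear_combination ((n - 2 * x0) / 2) ^ 2 * hen' + (n - 2 * x0) * hρx'
  have hn1 : ∀ n : ℝ, ‖(Fb + n • H).1‖ = |n / 2| := by
    intro n
    rw [hl1, Complex.norm_real, Real.norm_eq_abs]
  have hDm : ∀ n : ℝ, Dc (Fb + n • H) = (x0 ^ 2 - y0 ^ 2) + κ * (n - 2 * x0) := by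
    intro n
    have : Dc (Fb + n • H) = ‖(Fb + n • H).1‖ ^ 2 - ‖(Fb + n • H).2‖ ^ 2 := rfl
    rw [this, hn1, hn2, sq_abs]
    ring
  refine ⟨Fb, H, hHn, hn1, fun n => ?_, hDm, ?_⟩
  · rw [← hn2, Real.sqrt_sq (norm_nonneg _)]
  · have := hDm 0
    rw [zero_smul, add_zero] at this
    rw [this]; ring

/-- the final inequality -/
theorem fin_ineq {q r X u w C : ℝ} (hq : 0 < q) (hr : 0 < r) (hX : 0 ≤ X) (hu : 0 ≤ u)
    (hC : C = X - u + w) (hw : 2 * w = q * X + u) : C + u / r - w / r ^ 2 ≤ r ^ q * X := by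
  have h1 : 1 + q * Real.log r ≤ r ^ q := by
    rw [Real.rpow_def_of_pos hr]
    have := Real.add_one_le_exp (Real.log r * q)
    linarith
  have h2 := Real.log_le_sub_one_of_pos (show 0 < 1 / r ^ 2 by positivity)
  rw [one_div, Real.log_inv, Real.log_pow] at h2
  push_cast at h2
  have h3 : 0 ≤ r ^ q - 1 + q / 2 * ((r ^ 2)⁻¹ - 1) := by
    have := mul_le_mul_of_nonneg_left h2 (show 0 ≤ q / 2 by positivity)
    linarith
  have h4 : 0 ≤ X * (r ^ q - 1 + q / 2 * ((r ^ 2)⁻¹ - 1)) := mul_nonneg hX h3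
  have h5 : 0 ≤ u / 2 * (1 - 1 / r) ^ 2 := by positivity
  have hw' : w = (q * X + u) / 2 := by linarith
  have e : r ^ q * X - (C + u / r - w / r ^ 2)
      = X * (r ^ q - 1 + q / 2 * ((r ^ 2)⁻¹ - 1)) + u / 2 * (1 - 1 / r) ^ 2 := by
    rw [hC, hw']
    generalize r ^ q = Z
    field_simp
    ring
  linarith

theorem norm_eq {F F' : ℂ × ℂ} (h2 : ‖F.2‖ = ‖F'.2‖) (hD : Dc F = Dc F') : ‖F.1‖ = ‖F'.1‖ := by
  unfold Dc at hD
  rw [h2] at hD
  exact (sq_eq_sq₀ (norm_nonneg _) (norm_nonneg _)).1 (by linarith)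

theorem norm_eq' {F F' : ℂ × ℂ} (h1 : ‖F.1‖ = ‖F'.1‖) (hD : Dc F = Dc F') : ‖F.2‖ = ‖F'.2‖ := by
  unfold Dc at hD
  rw [h1] at hD
  exact (sq_eq_sq₀ (norm_nonneg _) (norm_nonneg _)).1 (by linarith)

theorem wq_congr (φ : ℝ → ℝ) (q : ℝ) {F F' : ℂ × ℂ} (h1 : ‖F.1‖ = ‖F'.1‖) (h2 : ‖F.2‖ = ‖F'.2‖) :
    wq φ q F = wq φ q F' := by
  unfold wq vv Kc
  rw [h1, h2]

theorem beta {φ : ℝ → ℝ} {q A B : ℝ} (hq : 0 < q) (hR : RCp (wq φ q)) {F0 : ℂ × ℂ} (h0 : Gl F0)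
    (hv0 : vv F0 = 1) (hT0 : A + B * Kc F0 = φ (Kc F0)) (hT : ∀ t, 1 ≤ t → A + B * t ≤ φ t)
    (hφ0 : 0 < φ (Kc F0)) (hB1 : 0 ≤ 2 * Kc F0 * B + q * φ (Kc F0)) (hB2 : (q + 2) * B ≤ q * A) :
    ∃ a k : ℝ, 0 ≤ a ∧ ∀ F, Gl F →
      wq φ q F0 + a * (‖F.2‖ - ‖F0.2‖) + k * (Dc F - Dc F0) ≤ wq φ q F := by
  set x0 : ℝ := ‖F0.1‖ with hx0d
  set y0 : ℝ := ‖F0.2‖ with hy0d
  have hxy1 : x0 - y0 = 1 := hv0
  have hy0 : 0 ≤ y0 := norm_nonneg _
  have hxe : x0 = 1 + y0 := by linarith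
  have hx0 : 0 < x0 := by linarith
  have hK0 : Kc F0 = 1 + 2 * y0 := by
    have : Kc F0 = (x0 + y0) / (x0 - y0) := rfl
    rw [this, hxy1, div_one, hxe]; ring
  have hD0 : Dc F0 = x0 ^ 2 - y0 ^ 2 := rfl
  have hD0' : Dc F0 = 1 + 2 * y0 := by rw [hD0, hxe]; ring
  set φ0 : ℝ := φ (Kc F0) with hφ0d
  have hw0 : wq φ q F0 = φ0 := by unfold wq; rw [hv0, Real.one_rpow, one_mul]
  rw [hK0] at hB1 hT0
  set a1 : ℝ := (2 * (1 + 2 * y0) * B + q * φ0) / (2 * x0) with ha1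
  set k : ℝ := -(q * φ0 + 2 * B * y0) / (2 * x0) with hk
  have ha10 : 0 ≤ a1 := div_nonneg hB1 (by positivity)
  have hkpos : 0 < -k := by
    have : -k = (q * φ0 + 2 * B * y0) / (2 * x0) := by rw [hk]; ring
    rw [this]
    refine div_pos ?_ (by positivity)
    rcases le_or_gt 0 B with hB | hB
    · positivity
    · nlinarith [mul_pos hq hφ0]
  have hkne : (q + 2) * -k ≠ 0 := (mul_pos (by linarith) hkpos).ne'
  set κ : ℝ := (q + 1) * a1 / ((q + 2) * -k) with hκ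
  have hκ0 : 0 ≤ κ := by
    have : 0 < (q + 2) * -k := mul_pos (by linarith) hkpos
    positivity
  have hκk : κ * ((q + 2) * -k) = (q + 1) * a1 := by rw [hκ]; exact div_mul_cancel₀ _ hkne
  have hκv : κ ≤ x0 - y0 := by
    rw [hxy1, hκ, div_le_one (mul_pos (by linarith) hkpos), ha1, hk]
    have e : (q + 1) * ((2 * (1 + 2 * y0) * B + q * φ0) / (2 * x0))
        - (q + 2) * -(-(q * φ0 + 2 * B * y0) / (2 * x0)) = ((q + 2) * B - q * A) / (2 * x0) := by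
      rw [← hT0]
      field_simp
      ring
    have : ((q + 2) * B - q * A) / (2 * x0) ≤ 0 :=
      div_nonpos_of_nonpos_of_nonneg (by linarith) (by positivity)
    linarith
  -- Euler's identity
  have hE : a1 * (2 * y0) + 2 * k * (1 + 2 * y0) = -(q * φ0) := by
    rw [ha1, hk, hxe]
    field_simp
    ring
  obtain ⟨Fb, H, hHn, hn1, hn2, hDm, hDb⟩ := line_m hy0 (by linarith : y0 < x0) hκ0 hκv
  have hx2 : x0 ^ 2 - y0 ^ 2 = 1 + 2 * y0 := by rw [hxe]; ring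
  rw [hx2] at hDb
  have hDl : ∀ τ : ℝ, Dc (Fb + τ • H) = Dc Fb + κ * τ := by
    intro τ
    rw [hDm, hDb, hx2]; ring
  have hconv := lineW hR hHn hDl
  set X : ℝ → ℝ := fun m => Real.sqrt (x0 ^ 2 + (κ + y0) * (m - 2 * y0) + (m - 2 * y0) ^ 2 / 4)
    with hX
  set R : ℝ → ℝ := fun m => (X m - m / 2) ^ (-q) * (A + B * ((X m + m / 2) / (X m - m / 2)))
    with hRd
  have hX0 : X (2 * y0) = x0 := by
    simp only [hX]
    have : x0 ^ 2 + (κ + y0) * (2 * y0 - 2 * y0) + (2 * y0 - 2 * y0) ^ 2 / 4 = x0 ^ 2 := by ring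
    rw [this, Real.sqrt_sq hx0.le]
  -- the derivative
  have hder : HasDerivAt R (a1 / (q + 2)) (2 * y0) := by
    have hI : HasDerivAt (fun m : ℝ => x0 ^ 2 + (κ + y0) * (m - 2 * y0) + (m - 2 * y0) ^ 2 / 4)
        (κ + y0) (2 * y0) := by
      have h1 : HasDerivAt (fun m : ℝ => m - 2 * y0) 1 (2 * y0) := (hasDerivAt_id _).sub_const _
      have h2 := ((h1.const_mul (κ + y0)).const_add (x0 ^ 2)).add ((h1.pow 2).div_const 4)
      refine h2.congr_deriv ?_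
      simp
    have hval : x0 ^ 2 + (κ + y0) * (2 * y0 - 2 * y0) + (2 * y0 - 2 * y0) ^ 2 / 4 = x0 ^ 2 := by
      ring
    have hXd : HasDerivAt X ((κ + y0) / (2 * x0)) (2 * y0) := by
      have := hI.sqrt (by rw [hval]; positivity)
      rw [hval, Real.sqrt_sq hx0.le] at this
      exact this
    have hm : HasDerivAt (fun m : ℝ => m / 2) (1 / 2) (2 * y0) := (hasDerivAt_id _).div_const 2
    have hS : HasDerivAt (fun m => X m + m / 2) ((κ + y0) / (2 * x0) + 1 / 2) (2 * y0) :=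
      hXd.add hm
    have hV : HasDerivAt (fun m => X m - m / 2) ((κ + y0) / (2 * x0) - 1 / 2) (2 * y0) :=
      hXd.sub hm
    have hV0 : X (2 * y0) - 2 * y0 / 2 = 1 := by rw [hX0]; linarith
    have hS0 : X (2 * y0) + 2 * y0 / 2 = 1 + 2 * y0 := by rw [hX0]; linarith
    have hqt := (hS.div hV (by rw [hV0]; norm_num)).const_mul B
    have hqt2 := hqt.const_add A
    have hp := hV.rpow_const (p := -q) (Or.inl (by rw [hV0]; norm_num))
    have hprod := hp.mul hqt2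
    refine hprod.congr_deriv ?_
    simp only [Pi.div_apply]
    rw [hV0, hS0, Real.one_rpow, Real.one_rpow, div_one, hT0]
    have hk2 : a1 / (q + 2) = a1 + κ * k := by
      have h7 : κ * k = -((q + 1) * a1) / (q + 2) := by
        rw [eq_div_iff (by linarith)]
        linarith
      rw [h7]
      field_simp
      ring
    rw [hk2, ha1, hk, ← hT0, hxe]
    field_simp
    ring
  have hgl : ∀ m, 0 < Dc Fb + κ * m → Gl (Fb + m • H) := by
    intro m hm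
    rw [Gl_iff, hDl]; exact hm
  -- the minorant
  have hge : ∀ m : ℝ, 0 ≤ m → 0 < Dc Fb + κ * m → R m ≤ wq φ q (Fb + m • H) := by
    intro m hm hp
    have hg := hgl m hp
    have hV := vv_pos hg
    have hKm : Kc (Fb + m • H) = (X m + m / 2) / (X m - m / 2) := by
      unfold Kc
      rw [hn2, hn1, abs_of_nonneg (by linarith)]
    have hVm : vv (Fb + m • H) = X m - m / 2 := by
      unfold vv
      rw [hn2, hn1, abs_of_nonneg (by linarith)]
    unfold wq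
    simp only [hRd]
    rw [hVm] at hV ⊢
    rw [← hKm]
    exact mul_le_mul_of_nonneg_left (hT _ (Kc_ge hg)) (Real.rpow_nonneg hV.le _)
  have hDb1 : 0 < Dc Fb := by rw [hDb]; nlinarith
  have h2y : Dc Fb + κ * (2 * y0) = 1 + 2 * y0 := by rw [hDb]; ring
  have hψ0 : wq φ q (Fb + (2 * y0) • H) = φ0 := by
    rw [← hw0]
    refine wq_congr φ q ?_ ?_
    · rw [hn1]
      have : x0 ^ 2 + (κ + y0) * (2 * y0 - 2 * y0) + (2 * y0 - 2 * y0) ^ 2 / 4 = x0 ^ 2 := by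
        ring
      rw [this, Real.sqrt_sq hx0.le]
    · rw [hn2, show 2 * y0 / 2 = y0 by ring, abs_of_nonneg hy0]
  have hR0 : R (2 * y0) = φ0 := by
    simp only [hRd]
    rw [hX0, show 2 * y0 / 2 = y0 by ring, hxy1, Real.one_rpow, one_mul, div_one]
    rw [show x0 + y0 = 1 + 2 * y0 by linarith]
    exact hT0
  -- the slope inequality
  have hsl : ∀ m' : ℝ, 0 ≤ m' → 0 < Dc Fb + κ * m' →
      φ0 + a1 / (q + 2) * (m' - 2 * y0) ≤ wq φ q (Fb + m' • H) := by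
    intro m' hm' hp'
    have := slope (R := R) hconv (m0 := 2 * y0) (m' := m') (d := a1 / (q + 2))
      (show 0 < Dc Fb + κ * (2 * y0) by rw [h2y]; linarith) hp' hder
      (by rw [hR0, hψ0]) (fun ε h1 h2 h3 => hge _ (by nlinarith) h3)
    rw [hψ0] at this
    exact this
  refine ⟨2 * a1, k, by positivity, fun F hF => ?_⟩
  have hFD : 0 < Dc F := (Gl_iff F).1 hF
  obtain ⟨r, hr, hqd⟩ := quad (P := Dc F) (Q := κ * (2 * ‖F.2‖)) (c := Dc Fb / 2) hFD
    (by positivity) (by positivity)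
  set m' : ℝ := r * (2 * ‖F.2‖) with hm'
  have hm'0 : 0 ≤ m' := by positivity
  have hDr : Dc (r • F) = r ^ 2 * Dc F := Dc_smul r F
  have hline : Dc Fb + κ * m' = r ^ 2 * Dc F := by rw [hm']; linarith
  have hpos : 0 < Dc Fb + κ * m' := by rw [hline]; positivity
  have h1 := hsl m' hm'0 hpos
  have hwe : wq φ q (Fb + m' • H) = wq φ q (r • F) := by
    have e2 : ‖(Fb + m' • H).2‖ = ‖(r • F).2‖ := by
      rw [hn2, abs_of_nonneg (by linarith), hm', Prod.smul_snd, norm_smul, Real.norm_eq_abs,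
        abs_of_pos hr]
      ring
    exact wq_congr φ q (norm_eq e2 (by rw [hDl, hline, hDr])) e2
  rw [hwe, wq_smul φ q hr hF] at h1
  set XX : ℝ := φ0 + a1 / (q + 2) * (m' - 2 * y0) with hXX
  have hrq : r ^ q * r ^ (-q) = 1 := by rw [← Real.rpow_add hr]; simp
  have h2 : r ^ q * XX ≤ wq φ q F := by
    have := mul_le_mul_of_nonneg_left h1 (Real.rpow_nonneg hr.le q)
    rw [← mul_assoc, hrq, one_mul] at this
    exact this
  have hXX0 : 0 ≤ XX := by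
    have h3 : a1 * (2 * y0) ≤ (q + 2) * φ0 := by
      rw [ha1]
      have hBt : (1 + 2 * y0) * B ≤ φ0 := by
        rcases le_or_gt B 0 with hB | hB
        · nlinarith
        · have : 0 ≤ A := by
            by_contra hcon
            rw [not_le] at hcon
            nlinarith
          linarith
      rw [div_mul_eq_mul_div, div_le_iff₀ (by positivity)]
      nlinarith [mul_pos hq hφ0, mul_le_mul_of_nonneg_left hBt hy0]
    have h4 : XX = ((q + 2) * φ0 - a1 * (2 * y0) + a1 * m') / (q + 2) := by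
      rw [hXX]; field_simp; ring
    rw [h4]
    have : 0 ≤ a1 * m' := by positivity
    exact div_nonneg (by linarith) (by linarith)
  have hkD : k * (r ^ 2 * Dc F) = k * (Dc Fb + κ * m') := by rw [hline]
  have hκk' : κ * k = -((q + 1) * a1) / (q + 2) := by
    rw [eq_div_iff (by linarith)]
    linarith
  have hfi := fin_ineq (q := q) (r := r) (X := XX) (u := a1 * m')
    (w := -k * (Dc Fb + κ * m')) (C := φ0 - a1 * (2 * y0) - k * (1 + 2 * y0)) hq hr hXX0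
    (by positivity)
    (by
      rw [hXX, hDb]
      have : -k * ((1 + 2 * y0) - κ * (2 * y0) + κ * m')
        = -k * (1 + 2 * y0) - (κ * k) * (m' - 2 * y0) := by ring
      rw [this, hκk']
      field_simp
      ring)
    (by
      rw [hXX, hDb]
      have : 2 * (-k * ((1 + 2 * y0) - κ * (2 * y0) + κ * m'))
        = -(2 * k * (1 + 2 * y0)) - 2 * (κ * k) * (m' - 2 * y0) := by ring
      rw [this, hκk']
      have e2 : -(2 * k * (1 + 2 * y0)) = q * φ0 + a1 * (2 * y0) := by linarith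
      rw [e2]
      field_simp
      ring)
  rw [hw0, hD0']
  refine le_trans (le_of_eq ?_) (hfi.trans h2)
  rw [hline, hm']
  field_simp
  ring

end Pool.Agent.Q187.HN
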