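import Pool.Agent.Q187.HN.Fin
import Pool.Agent.W22.HM.Iso

/-! # Duality `A ↦ det A · W(A⁻¹)` and functions of degree larger than two -/

set_option autoImplicit false

namespace Pool.Agent.Q187.HN

open MeasureTheory Set Filter Topology
open Pool.Agent.Y273.VI (RCp Tm T_meas RCp_of det_cab Rp)
open Pool.Agent.W360.MQ (cab)
open Pool.Agent.W523.MQ.OM (T)
open Pool.Agent.Q187.VI

theorem det_inv_pos {A : Matrix (Fin 2) (Fin 2) ℝ} (hA : 0 < A.det) : 0 < (A⁻¹).det := by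
  rw [Matrix.det_nonsing_inv, Ring.inverse_eq_inv']
  exact inv_pos.2 hA

theorem det_inv_eq (A : Matrix (Fin 2) (Fin 2) ℝ) : (A⁻¹).det = (A.det)⁻¹ := by
  rw [Matrix.det_nonsing_inv, Ring.inverse_eq_inv']

theorem inv_eq_adj (A : Matrix (Fin 2) (Fin 2) ℝ) : A⁻¹ = (A.det)⁻¹ • A.adjugate := by
  rw [Matrix.inv_def, Ring.inverse_eq_inv']

/-- rank-one convexity is preserved by the transformation -/
theorem dual_roc {W : Matrix (Fin 2) (Fin 2) ℝ → ℝ} (hR : Rp W) :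
    Rp (fun A => A.det * W A⁻¹) := by
  intro F H hH hF hG t h0 h1
  have hH0 : H.det = 0 := by
    by_contra hne
    have h2 := Matrix.rank_of_isUnit H ((Matrix.isUnit_iff_isUnit_det H).2 (isUnit_iff_ne_zero.2 hne))
    rw [hH] at h2
    simp at h2
  set G := F + H with hGd
  have hdet : ((1 - t) • F + t • G).det = (1 - t) * F.det + t * G.det := by
    rw [hGd]
    simp only [Matrix.det_fin_two, Matrix.add_apply, Matrix.smul_apply, smul_eq_mul] at hH0 ⊢
    linear_combination (t ^ 2 - t) * hH0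
  have hD : 0 < ((1 - t) • F + t • G).det := by
    rw [hdet]
    rcases eq_or_lt_of_le h0 with h | h
    · subst h; simpa using hF
    · have := mul_pos h hG
      have := mul_nonneg (sub_nonneg.2 h1) hF.le
      linarith
  set M := (1 - t) • F + t • G with hM
  have hrank : (G⁻¹ - F⁻¹).rank = 1 := by
    have e : G⁻¹ - F⁻¹ = ((-G⁻¹) * H) * F⁻¹ := by
      have hH' : H = G - F := by rw [hGd]; abel
      have i1 : G⁻¹ * G = 1 := Matrix.nonsing_inv_mul G (isUnit_iff_ne_zero.2 hG.ne')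
      have i2 : F * F⁻¹ = 1 := Matrix.mul_nonsing_inv F (isUnit_iff_ne_zero.2 hF.ne')
      rw [hH', neg_mul, mul_sub, i1, neg_mul, sub_mul, one_mul, mul_assoc, i2, mul_one]
      abel
    have u1 : IsUnit (-G⁻¹).det := by
      rw [Matrix.det_neg]
      simp only [Fintype.card_fin]
      rw [isUnit_iff_ne_zero]
      have := (det_inv_pos hG).ne'
      simpa using this
    have u2 : IsUnit (F⁻¹).det := isUnit_iff_ne_zero.2 (det_inv_pos hF).ne'
    rw [e, Matrix.rank_mul_eq_left_of_isUnit_det _ _ u2, Matrix.rank_mul_eq_right_of_isUnit_det _ _ u1,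
      hH]
  set l : ℝ := t * G.det / M.det with hl
  have hl0 : 0 ≤ l := by positivity
  have hl1' : 1 - l = (1 - t) * F.det / M.det := by
    rw [hl]
    field_simp
    rw [hdet]
    ring
  have hl1 : l ≤ 1 := by
    have : 0 ≤ 1 - l := by
      rw [hl1']
      exact div_nonneg (mul_nonneg (by linarith) hF.le) hD.le
    linarith
  have hMi : (1 - l) • F⁻¹ + l • (F⁻¹ + (G⁻¹ - F⁻¹)) = M⁻¹ := by
    have e0 : F⁻¹ + (G⁻¹ - F⁻¹) = G⁻¹ := by abel
    rw [e0, hl1', hl, inv_eq_adj F, inv_eq_adj G, inv_eq_adj M, smul_smul, smul_smul]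
    have e1 : (1 - t) * F.det / M.det * (F.det)⁻¹ = (M.det)⁻¹ * (1 - t) := by
      field_simp
    have e2 : t * G.det / M.det * (G.det)⁻¹ = (M.det)⁻¹ * t := by
      field_simp
    rw [e1, e2, mul_smul, mul_smul, ← smul_add]
    congr 1
    rw [hM, Matrix.adjugate_fin_two, Matrix.adjugate_fin_two, Matrix.adjugate_fin_two]
    ext i j
    fin_cases i <;> fin_cases j <;> simp <;> ring
  have h2 := hR F⁻¹ (G⁻¹ - F⁻¹) hrank (det_inv_pos hF)
    (by rw [add_sub_cancel]; exact det_inv_pos hG) l hl0 hl1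
  rw [hMi, add_sub_cancel] at h2
  have h3 := mul_le_mul_of_nonneg_left h2 hD.le
  show M.det * W M⁻¹ ≤ (1 - t) * (F.det * W F⁻¹) + t * (G.det * W G⁻¹)
  refine h3.trans (le_of_eq ?_)
  rw [hl1', hl]
  field_simp

theorem cab_inv (A : Matrix (Fin 2) (Fin 2) ℝ) (hA : 0 < A.det) :
    ‖(cab A⁻¹).1‖ = ‖((A.det)⁻¹ • cab A).1‖ ∧ ‖(cab A⁻¹).2‖ = ‖((A.det)⁻¹ • cab A).2‖ := by
  obtain ⟨r1, r2, r3, r4⟩ := cab_re A
  obtain ⟨s1, s2, s3, s4⟩ := cab_re A⁻¹
  have hi : 0 < (A.det)⁻¹ := inv_pos.2 hA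
  have e : A⁻¹ = (A.det)⁻¹ • !![A 1 1, -A 0 1; -A 1 0, A 0 0] := by
    rw [inv_eq_adj, Matrix.adjugate_fin_two]
  have e00 : A⁻¹ 0 0 = (A.det)⁻¹ * A 1 1 := by rw [e]; simp
  have e01 : A⁻¹ 0 1 = (A.det)⁻¹ * (-A 0 1) := by rw [e]; simp
  have e10 : A⁻¹ 1 0 = (A.det)⁻¹ * (-A 1 0) := by rw [e]; simp
  have e11 : A⁻¹ 1 1 = (A.det)⁻¹ * A 0 0 := by rw [e]; simp
  rw [e00, e11] at s1 s3
  rw [e10, e01] at s2 s4
  constructor
  · have h1 : (cab A⁻¹).1 = (((A.det)⁻¹ : ℝ) : ℂ) * (starRingEnd ℂ) (cab A).1 := by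
      apply Complex.ext
      · rw [s1]; simp [r1]; ring
      · rw [s2]; simp [r2]; ring
    rw [h1, norm_mul, RCLike.norm_conj, Complex.norm_real]
    simp only [Prod.smul_fst, norm_smul]
  · have h1 : (cab A⁻¹).2 = (((A.det)⁻¹ : ℝ) : ℂ) * (-(cab A).2) := by
      apply Complex.ext
      · rw [s3]; simp [r3]; ring
      · rw [s4]; simp [r4]; ring
    rw [h1, norm_mul, norm_neg, Complex.norm_real]
    simp only [Prod.smul_snd, norm_smul]

end Pool.Agent.Q187.HN
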