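import Pool.Agent.Q187.HN.In
import Pool.Agent.Q187.VI.Fin

/-! # The theorem for matrices -/

set_option autoImplicit false

namespace Pool.Agent.Q187.HN

open MeasureTheory Set Filter Topology
open Pool.Agent.Y273.VI (RCp Tm RCp_of det_cab Rp)
open Pool.Agent.W360.MQ (cab)
open Pool.Agent.W523.MQ.OM (T)
open Pool.Agent.Q187.VI

open scoped Matrix.Norms.L2Operator in
theorem gl_main {q : ℝ} (hq : 0 < q) (h : ℝ → ℝ) (h1 : 0 ≤ h 1)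
    (W : Matrix (Fin 2) (Fin 2) ℝ → ℝ)
    (hW : ∀ A : Matrix (Fin 2) (Fin 2) ℝ, 0 < A.det →
      W A = A.det ^ (-(q / 2)) * h (‖A‖ ^ 2 / A.det))
    (hR : Rp W) (F₀ : Matrix (Fin 2) (Fin 2) ℝ) (h0 : 0 < F₀.det) {Ω : Set (Fin 2 → ℝ)}
    {ϑ : (Fin 2 → ℝ) → (Fin 2 → ℝ)} (ht : Tm Ω ϑ)
    (hpos : ∀ᵐ x ∂(volume.restrict Ω), 0 < (F₀ + LinearMap.toMatrix'
      ((fderiv ℝ ϑ x : (Fin 2 → ℝ) →L[ℝ] (Fin 2 → ℝ)) :
        (Fin 2 → ℝ) →ₗ[ℝ] (Fin 2 → ℝ))).det)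
    (hfin : ∫⁻ x in Ω, ENNReal.ofReal (W (F₀ + LinearMap.toMatrix'
      ((fderiv ℝ ϑ x : (Fin 2 → ℝ) →L[ℝ] (Fin 2 → ℝ)) :
        (Fin 2 → ℝ) →ₗ[ℝ] (Fin 2 → ℝ)))) ≠ ⊤) :
    IntegrableOn (fun x => W (F₀ + LinearMap.toMatrix'
      ((fderiv ℝ ϑ x : (Fin 2 → ℝ) →L[ℝ] (Fin 2 → ℝ)) :
        (Fin 2 → ℝ) →ₗ[ℝ] (Fin 2 → ℝ)))) Ω ∧
    W F₀ * (volume Ω).toReal ≤ ∫ x in Ω, W (F₀ + LinearMap.toMatrix'
      ((fderiv ℝ ϑ x : (Fin 2 → ℝ) →L[ℝ] (Fin 2 → ℝ)) :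
        (Fin 2 → ℝ) →ₗ[ℝ] (Fin 2 → ℝ))) := by
  set φ : ℝ → ℝ := fun t => t ^ (-(q / 2)) * h t with hφ
  have hφ1 : 0 ≤ φ 1 := by
    simp only [hφ, Real.one_rpow, one_mul]; exact h1
  have hW' : ∀ A : Matrix (Fin 2) (Fin 2) ℝ, 0 < A.det → W A = wq φ q (cab A) := by
    intro A hA
    rw [hW A hA, val_q h q hA]
  have hRc : RCp (wq φ q) := RCp_of hW' hR
  have hpos' : ∀ᵐ x ∂(volume.restrict Ω),
      ‖(T F₀ (fderiv ℝ ϑ x)).2‖ < ‖(T F₀ (fderiv ℝ ϑ x)).1‖ := by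
    filter_upwards [hpos] with x hx
    exact (det_cab _).1 hx
  have hev : (fun x => W (F₀ + LinearMap.toMatrix'
      ((fderiv ℝ ϑ x : (Fin 2 → ℝ) →L[ℝ] (Fin 2 → ℝ)) :
        (Fin 2 → ℝ) →ₗ[ℝ] (Fin 2 → ℝ)))) =ᵐ[volume.restrict Ω]
      fun x => wq φ q (T F₀ (fderiv ℝ ϑ x)) := by
    filter_upwards [hpos] with x hx
    exact hW' _ hx
  have hfin' : ∫⁻ x in Ω, ENNReal.ofReal (wq φ q (T F₀ (fderiv ℝ ϑ x))) ≠ ⊤ := by
    have e := lintegral_congr_ae (hev.fun_comp ENNReal.ofReal)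
    simp only [Function.comp] at e
    rw [← e]
    exact hfin
  obtain ⟨h1, h2⟩ := main_poly ht (meas_q hRc F₀ hpos')
    (supp_gen hq hRc hφ1 ((det_cab F₀).1 h0)) hpos' hfin'
  refine ⟨h1.congr_fun_ae hev.symm, ?_⟩
  rw [integral_congr_ae hev, hW' F₀ h0]
  exact h2

open scoped Matrix.Norms.L2Operator in
theorem gl_poly {q : ℝ} (hq : 0 < q) (h : ℝ → ℝ) (hh : 0 ≤ h 1)
    (W : Matrix (Fin 2) (Fin 2) ℝ → ℝ)
    (hW : ∀ A : Matrix (Fin 2) (Fin 2) ℝ, 0 < A.det →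
      W A = A.det ^ (-(q / 2)) * h (‖A‖ ^ 2 / A.det))
    (hR : Rp W) (F₀ : Matrix (Fin 2) (Fin 2) ℝ) (h0 : 0 < F₀.det) :
    ∃ (B : Matrix (Fin 2) (Fin 2) ℝ) (c : ℝ), ∀ A : Matrix (Fin 2) (Fin 2) ℝ, 0 < A.det →
      W F₀ + ∑ i, ∑ j, B i j * (A i j - F₀ i j) + c * (A.det - F₀.det) ≤ W A := by
  set φ : ℝ → ℝ := fun t => t ^ (-(q / 2)) * h t with hφ
  have hφ1 : 0 ≤ φ 1 := by
    simp only [hφ, Real.one_rpow, one_mul]; exact hh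
  have hW' : ∀ A : Matrix (Fin 2) (Fin 2) ℝ, 0 < A.det → W A = wq φ q (cab A) := by
    intro A hA
    rw [hW A hA, val_q h q hA]
  have hRc : RCp (wq φ q) := RCp_of hW' hR
  obtain ⟨a, b, k, ha, hb, hS⟩ := supp_gen hq hRc hφ1 (F0 := cab F₀) ((det_cab F₀).1 h0)
  obtain ⟨p1, q1, h1⟩ := lin_norm (cab F₀).1
  obtain ⟨p2, q2, h2⟩ := lin_norm (cab F₀).2
  refine ⟨!![(b * p1 + a * p2) / 2, (-(b * q1) + a * q2) / 2;
    (b * q1 + a * q2) / 2, (b * p1 - a * p2) / 2], k, fun A hA => ?_⟩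
  have h3 := hS (cab A) ((det_cab A).1 hA)
  have h4 := mul_le_mul_of_nonneg_left (h1 (cab A).1) hb
  have h5 := mul_le_mul_of_nonneg_left (h2 (cab A).2) ha
  obtain ⟨r1, r2, r3, r4⟩ := cab_re A
  obtain ⟨s1, s2, s3, s4⟩ := cab_re F₀
  rw [r1, r2, s1, s2] at h4
  rw [r3, r4, s3, s4] at h5
  have e1 : Dc (cab A) = A.det := (Pool.Agent.W74.MQ.OPN.main A).2.symm
  have e2 : Dc (cab F₀) = F₀.det := (Pool.Agent.W74.MQ.OPN.main F₀).2.symm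
  rw [e1, e2] at h3
  rw [hW' A hA, hW' F₀ h0]
  simp only [Fin.sum_univ_two, Matrix.of_apply, Matrix.cons_val', Matrix.cons_val_zero,
    Matrix.cons_val_one, Matrix.cons_val_fin_one]
  linarith

open scoped Matrix.Norms.L2Operator in
theorem val_one {q : ℝ} (h : ℝ → ℝ) (W : Matrix (Fin 2) (Fin 2) ℝ → ℝ)
    (hW : ∀ A : Matrix (Fin 2) (Fin 2) ℝ, 0 < A.det →
      W A = A.det ^ (-(q / 2)) * h (‖A‖ ^ 2 / A.det)) {t : ℝ} (ht : 0 < t) :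
    W (t • (1 : Matrix (Fin 2) (Fin 2) ℝ)) = t ^ (-q) * h 1 := by
  have hd : (t • (1 : Matrix (Fin 2) (Fin 2) ℝ)).det = t ^ 2 := by
    rw [Matrix.det_smul, Matrix.det_one]; simp
  have hn : ‖(t • (1 : Matrix (Fin 2) (Fin 2) ℝ))‖ = t := by
    rw [norm_smul, Real.norm_eq_abs, abs_of_pos ht, norm_one, mul_one]
  rw [hW _ (by rw [hd]; positivity), hd, hn, div_self (by positivity)]
  congr 1
  rw [← Real.rpow_natCast, ← Real.rpow_mul ht.le]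
  congr 1
  push_cast
  ring

open scoped Matrix.Norms.L2Operator in
theorem poly_nec {q : ℝ} (hq : 0 < q) (h : ℝ → ℝ) (W : Matrix (Fin 2) (Fin 2) ℝ → ℝ)
    (hW : ∀ A : Matrix (Fin 2) (Fin 2) ℝ, 0 < A.det →
      W A = A.det ^ (-(q / 2)) * h (‖A‖ ^ 2 / A.det))
    (hP : ∃ (B : Matrix (Fin 2) (Fin 2) ℝ) (c : ℝ), ∀ A : Matrix (Fin 2) (Fin 2) ℝ, 0 < A.det →
      W 1 + ∑ i, ∑ j, B i j * (A i j - (1 : Matrix (Fin 2) (Fin 2) ℝ) i j)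
        + c * (A.det - (1 : Matrix (Fin 2) (Fin 2) ℝ).det) ≤ W A) : 0 ≤ h 1 := by
  obtain ⟨B, c, hB⟩ := hP
  by_contra hcon
  rw [not_le] at hcon
  set M : ℝ := |W 1| + |B 0 0| + |B 1 1| + |c| with hM
  have hM0 : 0 ≤ M := by positivity
  set R : ℝ := 1 + (M + 1) / (-h 1) with hR
  have hneg : 0 < -h 1 := by linarith
  have hR1 : 1 ≤ R := by
    have : 0 ≤ (M + 1) / (-h 1) := by positivity
    linarith
  set t : ℝ := R ^ (-(1 / q)) with ht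
  have ht0 : 0 < t := Real.rpow_pos_of_pos (by linarith) _
  have ht1 : t ≤ 1 := Real.rpow_le_one_of_one_le_of_nonpos hR1 (by
    have : 0 < 1 / q := by positivity
    linarith)
  have htq : t ^ (-q) = R := by
    rw [ht, ← Real.rpow_mul (by linarith)]
    have : -(1 / q) * -q = 1 := by field_simp
    rw [this, Real.rpow_one]
  have hd : (t • (1 : Matrix (Fin 2) (Fin 2) ℝ)).det = t ^ 2 := by
    rw [Matrix.det_smul, Matrix.det_one]; simp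
  have h2 := hB (t • 1) (by rw [hd]; positivity)
  rw [val_one h W hW ht0, htq, hd, Matrix.det_one] at h2
  simp only [Fin.sum_univ_two, Matrix.smul_apply, Matrix.one_apply, smul_eq_mul] at h2
  norm_num at h2
  have e1 : R * h 1 = h 1 - (M + 1) := by
    have hne : h 1 ≠ 0 := hcon.ne
    rw [hR, div_neg, add_mul, neg_mul, div_mul_cancel₀ _ hne]
    ring
  rw [e1] at h2
  have t1 : 0 ≤ 1 - t := by linarith
  have a1 : -|B 0 0| ≤ B 0 0 * (t - 1) := by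
    have := abs_nonneg (B 0 0)
    have h3 := neg_abs_le (B 0 0 * (t - 1))
    rw [abs_mul, abs_of_nonpos (by linarith : t - 1 ≤ 0)] at h3
    nlinarith
  have a2 : -|B 1 1| ≤ B 1 1 * (t - 1) := by
    have := abs_nonneg (B 1 1)
    have h3 := neg_abs_le (B 1 1 * (t - 1))
    rw [abs_mul, abs_of_nonpos (by linarith : t - 1 ≤ 0)] at h3
    nlinarith
  have a3 : -|c| ≤ c * (t ^ 2 - 1) := by
    have := abs_nonneg c
    have h3 := neg_abs_le (c * (t ^ 2 - 1))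
    have t2 : t ^ 2 - 1 ≤ 0 := by nlinarith
    rw [abs_mul, abs_of_nonpos t2] at h3
    nlinarith [sq_nonneg t]
  have a4 := neg_abs_le (W 1)
  linarith

open scoped Matrix.Norms.L2Operator in
theorem gl_nonneg {q : ℝ} (h : ℝ → ℝ) (hh : 0 ≤ h 1)
    (W : Matrix (Fin 2) (Fin 2) ℝ → ℝ)
    (hW : ∀ A : Matrix (Fin 2) (Fin 2) ℝ, 0 < A.det →
      W A = A.det ^ (-(q / 2)) * h (‖A‖ ^ 2 / A.det))
    (hR : Rp W) {A : Matrix (Fin 2) (Fin 2) ℝ} (hA : 0 < A.det) : 0 ≤ W A := by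
  set φ : ℝ → ℝ := fun t => t ^ (-(q / 2)) * h t with hφ
  have hφ1 : 0 ≤ φ 1 := by
    simp only [hφ, Real.one_rpow, one_mul]; exact hh
  have hW' : ∀ A : Matrix (Fin 2) (Fin 2) ℝ, 0 < A.det → W A = wq φ q (cab A) := by
    intro A hA
    rw [hW A hA, val_q h q hA]
  have hRc : RCp (wq φ q) := RCp_of hW' hR
  have hgl : Gl (cab A) := (det_cab A).1 hA
  rw [hW' A hA]
  exact mul_nonneg (Real.rpow_nonneg (vv_pos hgl).le _) (phi_nonneg hRc hφ1 (Kc_ge hgl))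

end Pool.Agent.Q187.HN
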