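import Pool.Agent.Q187.HN.Be

/-! # Supporting functions from rank-one lines, II -/

set_option autoImplicit false

namespace Pool.Agent.Q187.HN

open Set Filter Topology
open Pool.Agent.Y273.VI (RCp)
open Pool.Agent.Q187.VI

theorem quad2 {P Q R ρ : ℝ} (hP : 0 < P) (h : 0 < -(P * ρ ^ 2) + Q * ρ - R) :
    ∃ r : ℝ, ρ < r ∧ P * r ^ 2 - Q * r + R = 0 := by
  have hd : (2 * P * ρ - Q) ^ 2 < Q ^ 2 - 4 * P * R := by nlinarith
  have hd0 : 0 < Q ^ 2 - 4 * P * R := lt_of_le_of_lt (sq_nonneg _) hd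
  have h1 : Real.sqrt (Q ^ 2 - 4 * P * R) ^ 2 = Q ^ 2 - 4 * P * R := Real.sq_sqrt hd0.le
  have h2 : 2 * P * ρ - Q < Real.sqrt (Q ^ 2 - 4 * P * R) := by
    refine Real.lt_sqrt_of_sq_lt hd
  refine ⟨(Q + Real.sqrt (Q ^ 2 - 4 * P * R)) / (2 * P), ?_, ?_⟩
  · rw [lt_div_iff₀ (by positivity)]; linarith
  · generalize Real.sqrt (Q ^ 2 - 4 * P * R) = S at h1
    field_simp
    linear_combination h1

/-- the derivative of the tangent function along the line -/
theorem derN {x0 y0 κ q A B φ0 : ℝ} (hy0 : 0 < y0) (hxy1 : x0 - y0 = 1)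
    (hT0 : A + B * (1 + 2 * y0) = φ0) :
    HasDerivAt (fun n : ℝ =>
      (n / 2 - Real.sqrt (y0 ^ 2 + (x0 - κ) * (n - 2 * x0) + (n - 2 * x0) ^ 2 / 4)) ^ (-q) *
        (A + B * ((n / 2 + Real.sqrt (y0 ^ 2 + (x0 - κ) * (n - 2 * x0) + (n - 2 * x0) ^ 2 / 4)) /
          (n / 2 - Real.sqrt (y0 ^ 2 + (x0 - κ) * (n - 2 * x0) + (n - 2 * x0) ^ 2 / 4)))))
      ((2 * (1 + 2 * y0) * B + q * φ0) / (2 * y0)
        + κ * (-(q * φ0 + 2 * B * x0) / (2 * y0))) (2 * x0) := by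
  set Y : ℝ → ℝ := fun n => Real.sqrt (y0 ^ 2 + (x0 - κ) * (n - 2 * x0) + (n - 2 * x0) ^ 2 / 4)
    with hY
  have hval : y0 ^ 2 + (x0 - κ) * (2 * x0 - 2 * x0) + (2 * x0 - 2 * x0) ^ 2 / 4 = y0 ^ 2 := by
    ring
  have hY0 : Y (2 * x0) = y0 := by
    simp only [hY]
    rw [hval, Real.sqrt_sq hy0.le]
  have hI : HasDerivAt (fun n : ℝ => y0 ^ 2 + (x0 - κ) * (n - 2 * x0) + (n - 2 * x0) ^ 2 / 4)
      (x0 - κ) (2 * x0) := by
    have h1 : HasDerivAt (fun n : ℝ => n - 2 * x0) 1 (2 * x0) := (hasDerivAt_id _).sub_const _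
    have h2 := ((h1.const_mul (x0 - κ)).const_add (y0 ^ 2)).add ((h1.pow 2).div_const 4)
    refine h2.congr_deriv ?_
    simp
  have hYd : HasDerivAt Y ((x0 - κ) / (2 * y0)) (2 * x0) := by
    have := hI.sqrt (by rw [hval]; positivity)
    rw [hval, Real.sqrt_sq hy0.le] at this
    exact this
  have hm : HasDerivAt (fun n : ℝ => n / 2) (1 / 2) (2 * x0) := (hasDerivAt_id _).div_const 2
  have hS : HasDerivAt (fun n => n / 2 + Y n) (1 / 2 + (x0 - κ) / (2 * y0)) (2 * x0) :=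
    hm.add hYd
  have hV : HasDerivAt (fun n => n / 2 - Y n) (1 / 2 - (x0 - κ) / (2 * y0)) (2 * x0) :=
    hm.sub hYd
  have hV0 : 2 * x0 / 2 - Y (2 * x0) = 1 := by rw [hY0]; linarith
  have hS0 : 2 * x0 / 2 + Y (2 * x0) = 1 + 2 * y0 := by rw [hY0]; linarith
  have hqt := (hS.div hV (by rw [hV0]; norm_num)).const_mul B
  have hqt2 := hqt.const_add A
  have hp := hV.rpow_const (p := -q) (Or.inl (by rw [hV0]; norm_num))
  have hprod := hp.mul hqt2
  refine hprod.congr_deriv ?_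
  simp only [Pi.div_apply]
  rw [hV0, hS0, Real.one_rpow, Real.one_rpow, div_one, hT0]
  have hx : x0 = 1 + y0 := by linarith
  rw [hx]
  field_simp
  ring

theorem gamma {φ : ℝ → ℝ} {q A B : ℝ} (hq : 0 < q) (hR : RCp (wq φ q)) {F0 : ℂ × ℂ}
    (hv0 : vv F0 = 1) (hT0 : A + B * Kc F0 = φ (Kc F0)) (hT : ∀ t, 1 ≤ t → A + B * t ≤ φ t)
    (hφ0 : 0 < φ (Kc F0)) (hB : 0 < B) (hG : (q + 2) * B ≤ -(q * A)) :
    ∃ b k : ℝ, 0 ≤ b ∧ ∀ F, Gl F →
      0 < wq φ q F0 + b * (‖F.1‖ - ‖F0.1‖) + k * (Dc F - Dc F0) →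
      wq φ q F0 + b * (‖F.1‖ - ‖F0.1‖) + k * (Dc F - Dc F0) ≤ wq φ q F := by
  set x0 : ℝ := ‖F0.1‖ with hx0d
  set y0 : ℝ := ‖F0.2‖ with hy0d
  have hxy1 : x0 - y0 = 1 := hv0
  have hy0' : 0 ≤ y0 := norm_nonneg _
  have hxe : x0 = 1 + y0 := by linarith
  have hx0 : 0 < x0 := by linarith
  have hK0 : Kc F0 = 1 + 2 * y0 := by
    have : Kc F0 = (x0 + y0) / (x0 - y0) := rfl
    rw [this, hxy1, div_one, hxe]; ring
  have hD0 : Dc F0 = x0 ^ 2 - y0 ^ 2 := rfl
  have hD0' : Dc F0 = 1 + 2 * y0 := by rw [hD0, hxe]; ring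
  set φ0 : ℝ := φ (Kc F0) with hφ0d
  have hw0 : wq φ q F0 = φ0 := by unfold wq; rw [hv0, Real.one_rpow, one_mul]
  rw [hK0] at hT0
  have hy0 : 0 < y0 := by
    rcases eq_or_lt_of_le hy0' with h | h
    · exfalso
      rw [← h] at hT0
      nlinarith
    · exact h
  set b1 : ℝ := (2 * (1 + 2 * y0) * B + q * φ0) / (2 * y0) with hb1
  set k : ℝ := -(q * φ0 + 2 * B * x0) / (2 * y0) with hk
  have hb10 : 0 < b1 := by rw [hb1]; positivity
  have hkpos : 0 < -k := by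
    have : -k = (q * φ0 + 2 * B * x0) / (2 * y0) := by rw [hk]; ring
    rw [this]; positivity
  have hkk : 0 < (q + 2) * -k := mul_pos (by linarith) hkpos
  set κ : ℝ := (q + 1) * b1 / ((q + 2) * -k) with hκ
  have hκk : κ * ((q + 2) * -k) = (q + 1) * b1 := by rw [hκ]; exact div_mul_cancel₀ _ hkk.ne'
  have hκ1 : 1 ≤ κ := by
    rw [hκ, le_div_iff₀ hkk, one_mul, hb1, hk]
    have e : (q + 1) * ((2 * (1 + 2 * y0) * B + q * φ0) / (2 * y0))
        - (q + 2) * -(-(q * φ0 + 2 * B * x0) / (2 * y0)) = (-(q * A) - (q + 2) * B) / (2 * y0) := by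
      rw [← hT0, hxe]
      field_simp
      ring
    have : 0 ≤ (-(q * A) - (q + 2) * B) / (2 * y0) := div_nonneg (by linarith) (by positivity)
    linarith
  have hκ2 : κ ≤ x0 + y0 := by
    rw [hκ, div_le_iff₀ hkk, hb1, hk]
    have e : (x0 + y0) * ((q + 2) * -(-(q * φ0 + 2 * B * x0) / (2 * y0)))
        - (q + 1) * ((2 * (1 + 2 * y0) * B + q * φ0) / (2 * y0))
        = (q * φ0 * ((1 + 2 * y0) * (q + 2) - (q + 1))
          + 2 * (1 + 2 * y0) * B * ((q + 2) * x0 - (q + 1))) / (2 * y0) := by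
      rw [hxe]
      field_simp
      ring
    have h3 : 0 ≤ (1 + 2 * y0) * (q + 2) - (q + 1) := by nlinarith
    have h4 : 0 ≤ (q + 2) * x0 - (q + 1) := by rw [hxe]; nlinarith
    have : 0 ≤ (q * φ0 * ((1 + 2 * y0) * (q + 2) - (q + 1))
          + 2 * (1 + 2 * y0) * B * ((q + 2) * x0 - (q + 1))) / (2 * y0) := by positivity
    linarith
  have hE : b1 * (2 * x0) + 2 * k * (1 + 2 * y0) = -(q * φ0) := by
    rw [hb1, hk, hxe]
    field_simp
    ring
  obtain ⟨Fb, H, hHn, hn1, hn2, hDm, hDb⟩ := line_n (x0 := x0) hy0 (by linarith) hκ2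
  have hx2 : x0 ^ 2 - y0 ^ 2 = 1 + 2 * y0 := by rw [hxe]; ring
  rw [hx2] at hDb
  have hDl : ∀ τ : ℝ, Dc (Fb + τ • H) = Dc Fb + κ * τ := by
    intro τ
    rw [hDm, hDb, hx2]; ring
  have hconv := lineW hR hHn hDl
  set Y : ℝ → ℝ := fun n => Real.sqrt (y0 ^ 2 + (x0 - κ) * (n - 2 * x0) + (n - 2 * x0) ^ 2 / 4)
    with hY
  have hnpos : ∀ n, 0 < Dc Fb + κ * n → 0 < n := by
    intro n hn
    rw [hDb] at hn
    have : 1 < κ * n := by nlinarith
    by_contra hcon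
    rw [not_lt] at hcon
    nlinarith
  have hκk' : κ * k = -((q + 1) * b1) / (q + 2) := by
    rw [eq_div_iff (by linarith)]
    linarith
  have hder := derN (κ := κ) (q := q) hy0 hxy1 hT0
  rw [← hb1, ← hk] at hder
  have hsum : b1 + κ * k = b1 / (q + 2) := by
    rw [hκk']
    field_simp
    ring
  rw [hsum] at hder
  have hgl : ∀ n, 0 < Dc Fb + κ * n → Gl (Fb + n • H) := by
    intro n hn
    rw [Gl_iff, hDl]; exact hn
  set R : ℝ → ℝ := fun n => (n / 2 - Y n) ^ (-q) * (A + B * ((n / 2 + Y n) / (n / 2 - Y n)))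
    with hRd
  have hge : ∀ n : ℝ, 0 < Dc Fb + κ * n → R n ≤ wq φ q (Fb + n • H) := by
    intro n hp
    have hg := hgl n hp
    have hn := hnpos n hp
    have hV := vv_pos hg
    have hKm : Kc (Fb + n • H) = (n / 2 + Y n) / (n / 2 - Y n) := by
      unfold Kc
      rw [hn2, hn1, abs_of_pos (by linarith)]
    have hVm : vv (Fb + n • H) = n / 2 - Y n := by
      unfold vv
      rw [hn2, hn1, abs_of_pos (by linarith)]
    unfold wq
    simp only [hRd]
    rw [hVm] at hV ⊢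
    rw [← hKm]
    exact mul_le_mul_of_nonneg_left (hT _ (Kc_ge hg)) (Real.rpow_nonneg hV.le _)
  have h2y : Dc Fb + κ * (2 * x0) = 1 + 2 * y0 := by rw [hDb]; ring
  have hval : y0 ^ 2 + (x0 - κ) * (2 * x0 - 2 * x0) + (2 * x0 - 2 * x0) ^ 2 / 4 = y0 ^ 2 := by
    ring
  have hψ0 : wq φ q (Fb + (2 * x0) • H) = φ0 := by
    rw [← hw0]
    refine wq_congr φ q ?_ ?_
    · rw [hn1, show 2 * x0 / 2 = x0 by ring, abs_of_pos hx0]
    · rw [hn2, hval, Real.sqrt_sq hy0.le]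
  have hR0 : R (2 * x0) = φ0 := by
    have hY0 : Y (2 * x0) = y0 := by
      simp only [hY]
      rw [hval, Real.sqrt_sq hy0.le]
    simp only [hRd]
    rw [hY0, show 2 * x0 / 2 = x0 by ring, hxy1, Real.one_rpow, one_mul, div_one]
    rw [show x0 + y0 = 1 + 2 * y0 by linarith]
    exact hT0
  have hsl : ∀ n' : ℝ, 0 < Dc Fb + κ * n' →
      φ0 + b1 / (q + 2) * (n' - 2 * x0) ≤ wq φ q (Fb + n' • H) := by
    intro n' hp'
    have := slope (R := R) hconv (m0 := 2 * x0) (m' := n') (d := b1 / (q + 2))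
      (show 0 < Dc Fb + κ * (2 * x0) by rw [h2y]; linarith) hp' hder
      (by rw [hR0, hψ0]) (fun ε h1 h2 h3 => hge _ h3)
    rw [hψ0] at this
    exact this
  refine ⟨2 * b1, k, by positivity, fun F hF hP => ?_⟩
  have hFD : 0 < Dc F := (Gl_iff F).1 hF
  set n : ℝ := 2 * ‖F.1‖ with hn
  set C : ℝ := φ0 - b1 * (2 * x0) - k * (1 + 2 * y0) with hC
  have hPF : wq φ q F0 + 2 * b1 * (‖F.1‖ - x0) + k * (Dc F - Dc F0) = C + b1 * n + k * Dc F := by
    rw [hw0, hD0', hC, hn]; ring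
  rw [hPF] at hP ⊢
  have hn0 : 0 ≤ n := by positivity
  -- the root
  obtain ⟨r, hr1, hqd⟩ := quad2 (P := (q + 2) * -k * Dc F) (Q := (q + 1) * b1 * n) (R := -(q * C))
    (ρ := b1 * n / (2 * (-k * Dc F))) (by positivity) (by
      have hkD : 0 < -k * Dc F := mul_pos hkpos hFD
      have e : -((q + 2) * -k * Dc F * (b1 * n / (2 * (-k * Dc F))) ^ 2)
          + (q + 1) * b1 * n * (b1 * n / (2 * (-k * Dc F))) - -(q * C)
          = q * (C + (b1 * n) ^ 2 / (4 * (-k * Dc F))) := by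
        have h1 : (q + 2) * -k * Dc F * (b1 * n / (2 * (-k * Dc F))) ^ 2
            = (q + 2) * ((b1 * n) ^ 2 / (4 * (-k * Dc F))) := by
          generalize hZ : -k * Dc F = Z at *
          rw [show (q + 2) * -k * Dc F = (q + 2) * (-k * Dc F) by ring, hZ]
          field_simp
          ring
        rw [h1]
        generalize -k * Dc F = Z at *
        field_simp
        ring
      rw [e]
      refine mul_pos hq (lt_of_lt_of_le hP ?_)
      have h2 : b1 * n - (-k * Dc F) ≤ (b1 * n) ^ 2 / (4 * (-k * Dc F)) := by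
        rw [le_div_iff₀ (by positivity)]
        nlinarith [sq_nonneg (b1 * n - 2 * (-k * Dc F))]
      linarith)
  have hkD : 0 < -k * Dc F := mul_pos hkpos hFD
  have hr : 0 < r := lt_of_le_of_lt (by positivity) hr1
  have hr2 : b1 * n < 2 * (-k * Dc F) * r := by
    rw [div_lt_iff₀ (by positivity)] at hr1
    linarith
  set n' : ℝ := r * n with hn'
  have hDr : Dc (r • F) = r ^ 2 * Dc F := Dc_smul r F
  have hline : Dc Fb + κ * n' = r ^ 2 * Dc F := by
    have h1 : ((q + 2) * -k) * (r ^ 2 * Dc F) = (q + 1) * b1 * n' + q * C := by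
      rw [hn']; linarith
    have h2 : ((q + 2) * -k) * (Dc Fb + κ * n') = (q + 1) * b1 * n' + q * C := by
      have h3 : ((q + 2) * -k) * (Dc Fb + κ * n')
          = (q + 2) * -k * (1 + 2 * y0) + (κ * ((q + 2) * -k)) * (n' - 2 * x0) := by
        rw [hDb]; ring
      rw [h3, hκk, hC]
      linear_combination (-1 : ℝ) * hE
    exact mul_left_cancel₀ hkk.ne' (h2.trans h1.symm)
  have hpos : 0 < Dc Fb + κ * n' := by rw [hline]; positivity
  have h1 := hsl n' hpos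
  have hwe : wq φ q (Fb + n' • H) = wq φ q (r • F) := by
    have e1 : ‖(Fb + n' • H).1‖ = ‖(r • F).1‖ := by
      rw [hn1, abs_of_nonneg (by positivity), hn', hn, Prod.smul_fst, norm_smul,
        Real.norm_eq_abs, abs_of_pos hr]
      ring
    exact wq_congr φ q e1 (norm_eq' e1 (by rw [hDl, hline, hDr]))
  rw [hwe, wq_smul φ q hr hF] at h1
  set XX : ℝ := φ0 + b1 / (q + 2) * (n' - 2 * x0) with hXX
  have hrq : r ^ q * r ^ (-q) = 1 := by rw [← Real.rpow_add hr]; simp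
  have h2 : r ^ q * XX ≤ wq φ q F := by
    have := mul_le_mul_of_nonneg_left h1 (Real.rpow_nonneg hr.le q)
    rw [← mul_assoc, hrq, one_mul] at this
    exact this
  have hid1 : C = XX - b1 * n' + -k * (Dc Fb + κ * n') := by
    rw [hXX, hDb, hC]
    have : -k * ((1 + 2 * y0) - κ * (2 * x0) + κ * n')
      = -k * (1 + 2 * y0) - (κ * k) * (n' - 2 * x0) := by ring
    rw [this, hκk']
    field_simp
    ring
  have hid2 : 2 * (-k * (Dc Fb + κ * n')) = q * XX + b1 * n' := by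
    rw [hXX, hDb]
    have : 2 * (-k * ((1 + 2 * y0) - κ * (2 * x0) + κ * n'))
      = -(2 * k * (1 + 2 * y0)) - 2 * (κ * k) * (n' - 2 * x0) := by ring
    rw [this, hκk']
    have e2 : -(2 * k * (1 + 2 * y0)) = q * φ0 + b1 * (2 * x0) := by linarith
    rw [e2]
    field_simp
    ring
  have hXX0 : 0 ≤ XX := by
    have h3 : b1 * n' < 2 * (-k * (Dc Fb + κ * n')) := by
      rw [hline, hn']
      have : r * (b1 * n) < r * (2 * (-k * Dc F) * r) := mul_lt_mul_of_pos_left hr2 hr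
      nlinarith
    rw [hid2] at h3
    by_contra hcon
    rw [not_le] at hcon
    nlinarith
  have hfi := fin_ineq (q := q) (r := r) (X := XX) (u := b1 * n')
    (w := -k * (Dc Fb + κ * n')) (C := C) hq hr hXX0 (by positivity) hid1 hid2
  refine le_trans (le_of_eq ?_) (hfi.trans h2)
  rw [hline, hn']
  field_simp
  ring

end Pool.Agent.Q187.HN
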