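import Pool.Agent.Q187.VI.Supp

/-! # Rank-one lines and homogeneous functions of negative degree -/

set_option autoImplicit false

namespace Pool.Agent.Q187.HN

open Set Filter Topology
open Pool.Agent.Y273.VI (RCp)
open Pool.Agent.Q187.VI

/-- convexity along a rank-one line -/
theorem lineW {w : ℂ × ℂ → ℝ} (hR : RCp w) {F H : ℂ × ℂ} (hH : ‖H.1‖ = ‖H.2‖) {κ : ℝ}
    (hκ : ∀ τ : ℝ, Dc (F + τ • H) = Dc F + κ * τ) :
    ConvexOn ℝ {τ : ℝ | 0 < Dc F + κ * τ} (fun τ => w (F + τ • H)) := by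
  refine ⟨cv_half _ _, fun x hx y hy a b ha hb hab => ?_⟩
  have hx' : 0 < Dc F + κ * x := hx
  have hy' : 0 < Dc F + κ * y := hy
  have gl : ∀ τ, 0 < Dc F + κ * τ → ‖(F + τ • H).2‖ < ‖(F + τ • H).1‖ := by
    intro τ hτ
    have h1 : Gl (F + τ • H) := by rw [Gl_iff, hκ]; exact hτ
    exact h1
  have e1 : (F + x • H) + (y - x) • H = F + y • H := by
    rw [add_assoc, ← add_smul]; congr 2; ring
  have e2 : (F + x • H) + b • ((y - x) • H) = F + (a * x + b * y) • H := by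
    have : a = 1 - b := by linarith
    rw [smul_smul, add_assoc, ← add_smul, this]; congr 2; ring
  have hr := hR (F + x • H) ((y - x) • H)
    (by simp only [Prod.smul_fst, Prod.smul_snd, norm_smul, hH]) (gl x hx')
    (by rw [e1]; exact gl y hy') b hb (by linarith)
  rw [e1, e2] at hr
  have : a = 1 - b := by linarith
  simp only [smul_eq_mul]
  rw [this] at hr ⊢
  exact hr

/-- monotonicity in the quotient of the singular values on the matrices of determinant one -/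
theorem mono_gen {w : ℂ × ℂ → ℝ} {h : ℝ → ℝ} (hR : RCp w)
    (hw : ∀ F, Gl F → Dc F = 1 → w F = h (Kc F)) {t1 t2 : ℝ} (h1 : 1 ≤ t1) (h12 : t1 ≤ t2) :
    h t1 ≤ h t2 := by
  have ht1 : 0 < t1 := by linarith
  have ht2 : 0 < t2 := by linarith
  set P : ℝ → ℂ × ℂ := fun τ => ((1 : ℂ), (0 : ℂ)) + τ • (Complex.I, (1 : ℂ)) with hP
  have hD0 : Dc ((1 : ℂ), (0 : ℂ)) = 1 := by simp [Dc]
  have n1 : ∀ τ, ‖(P τ).1‖ ^ 2 = 1 + τ ^ 2 := by
    intro τ
    rw [← Complex.normSq_eq_norm_sq, Complex.normSq_apply]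
    simp [hP]
    ring
  have n2 : ∀ τ, ‖(P τ).2‖ = |τ| := by
    intro τ
    simp [hP]
  have hDP : ∀ τ, Dc (P τ) = 1 := by
    intro τ
    unfold Dc
    rw [n1, n2, sq_abs]
    ring
  have hGP : ∀ τ, Gl (P τ) := by
    intro τ
    rw [Gl_iff, hDP]; exact one_pos
  have hKsym : ∀ τ, Kc (P (-τ)) = Kc (P τ) := by
    intro τ
    refine fst_eq ?_ ?_
    · rw [n2, n2, abs_neg]
    · rw [hDP, hDP]
  have hK : ∀ t, 1 ≤ t → Kc (P ((Real.sqrt t - 1 / Real.sqrt t) / 2)) = t := by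
    intro t ht
    have ht0 : 0 < t := by linarith
    set u := Real.sqrt t with hu
    have hu0 : 0 < u := Real.sqrt_pos.2 ht0
    have hu2 : u ^ 2 = t := Real.sq_sqrt ht0.le
    have hu1 : 1 ≤ u := by rw [hu]; exact Real.one_le_sqrt.2 ht
    set τ := (u - 1 / u) / 2 with hτ
    have hτ0 : 0 ≤ τ := by
      have : 1 / u ≤ 1 := by rw [div_le_one hu0]; exact hu1
      rw [hτ]; linarith
    have e1 : ‖(P τ).1‖ = (u + 1 / u) / 2 := by
      have h3 : ‖(P τ).1‖ ^ 2 = ((u + 1 / u) / 2) ^ 2 := by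
        rw [n1, hτ]
        field_simp
        ring
      exact (sq_eq_sq₀ (norm_nonneg _) (by positivity)).1 h3
    unfold Kc
    rw [e1, n2, abs_of_nonneg hτ0, hτ]
    have e2 : (u + 1 / u) / 2 + (u - 1 / u) / 2 = u := by ring
    have e3 : (u + 1 / u) / 2 - (u - 1 / u) / 2 = 1 / u := by ring
    rw [e2, e3, ← hu2]
    field_simp
  set τ1 : ℝ := (Real.sqrt t1 - 1 / Real.sqrt t1) / 2 with hτ1
  set τ2 : ℝ := (Real.sqrt t2 - 1 / Real.sqrt t2) / 2 with hτ2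
  have hs1 : 1 ≤ Real.sqrt t1 := Real.one_le_sqrt.2 h1
  have hs12 : Real.sqrt t1 ≤ Real.sqrt t2 := Real.sqrt_le_sqrt h12
  have h0 : 0 ≤ τ1 := by
    have : 1 / Real.sqrt t1 ≤ 1 := by rw [div_le_one (by linarith)]; exact hs1
    rw [hτ1]; linarith
  have hle : τ1 ≤ τ2 := by
    have : 1 / Real.sqrt t2 ≤ 1 / Real.sqrt t1 := one_div_le_one_div_of_le (by linarith) hs12
    rw [hτ1, hτ2]; linarith
  have hc := lineW hR (F := ((1 : ℂ), (0 : ℂ))) (H := (Complex.I, (1 : ℂ)))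
    (by simp) (κ := 0) (fun τ => by rw [hD0]; have := hDP τ; simp only [hP] at this; rw [this]; ring)
  have hcP : ∀ x y a b : ℝ, 0 ≤ a → 0 ≤ b → a + b = 1 →
      h (Kc (P (a * x + b * y))) ≤ a * h (Kc (P x)) + b * h (Kc (P y)) := by
    intro x y a b ha hb hab
    have hx : x ∈ {τ : ℝ | 0 < Dc ((1 : ℂ), (0 : ℂ)) + 0 * τ} := by
      show 0 < Dc ((1 : ℂ), (0 : ℂ)) + 0 * x
      rw [hD0]; norm_num
    have hy : y ∈ {τ : ℝ | 0 < Dc ((1 : ℂ), (0 : ℂ)) + 0 * τ} := by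
      show 0 < Dc ((1 : ℂ), (0 : ℂ)) + 0 * y
      rw [hD0]; norm_num
    have h3 := hc.2 hx hy ha hb hab
    simp only [smul_eq_mul] at h3
    have h4 : w (P (a * x + b * y)) ≤ a * w (P x) + b * w (P y) := h3
    rwa [hw _ (hGP _) (hDP _), hw _ (hGP _) (hDP _), hw _ (hGP _) (hDP _)] at h4
  rcases eq_or_lt_of_le (h0.trans hle) with h2 | h2
  · have : τ1 = τ2 := by linarith
    have e1 := hK t1 h1
    have e2 := hK t2 (h1.trans h12)
    rw [← hτ1] at e1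
    rw [← hτ2, ← this, e1] at e2
    rw [e2]
  · set b : ℝ := (τ1 + τ2) / (2 * τ2) with hb
    have hb0 : 0 ≤ b := by positivity
    have hb1 : b ≤ 1 := by rw [hb, div_le_one (by positivity)]; linarith
    have := hcP (-τ2) τ2 (1 - b) b (sub_nonneg.2 hb1) hb0 (by ring)
    have e : (1 - b) * -τ2 + b * τ2 = τ1 := by
      rw [hb]; field_simp; ring
    rw [e, hKsym, hτ1, hτ2, hK t1 h1, hK t2 (h1.trans h12)] at this
    linarith

/-- the smallest singular value -/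
noncomputable def vv (F : ℂ × ℂ) : ℝ := ‖F.1‖ - ‖F.2‖

/-- the largest singular value -/
noncomputable def ss (F : ℂ × ℂ) : ℝ := ‖F.1‖ + ‖F.2‖

/-- the homogeneous function of degree `-q` -/
noncomputable def wq (φ : ℝ → ℝ) (q : ℝ) (F : ℂ × ℂ) : ℝ := vv F ^ (-q) * φ (Kc F)

theorem vv_pos {F : ℂ × ℂ} (h : Gl F) : 0 < vv F := sub_pos.2 h

theorem ss_ge {F : ℂ × ℂ} : vv F ≤ ss F := by
  unfold vv ss; linarith [norm_nonneg F.2]

theorem Kc_eq (F : ℂ × ℂ) : Kc F = ss F / vv F := rfl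

theorem Dc_eq (F : ℂ × ℂ) : Dc F = ss F * vv F := by unfold Dc ss vv; ring

theorem Dc_eq' {F : ℂ × ℂ} (h : Gl F) : Dc F = vv F ^ 2 * Kc F := by
  rw [Dc_eq, Kc_eq]
  have := vv_pos h
  field_simp

theorem vv_smul {r : ℝ} (hr : 0 < r) (F : ℂ × ℂ) : vv (r • F) = r * vv F := by
  unfold vv
  simp only [Prod.smul_fst, Prod.smul_snd, norm_smul, Real.norm_eq_abs, abs_of_pos hr]
  ring

theorem wq_smul (φ : ℝ → ℝ) (q : ℝ) {r : ℝ} (hr : 0 < r) {F : ℂ × ℂ} (h : Gl F) :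
    wq φ q (r • F) = r ^ (-q) * wq φ q F := by
  unfold wq
  rw [vv_smul hr, Kc_smul hr, Real.mul_rpow hr.le (vv_pos h).le]
  ring

theorem Gl_smul {r : ℝ} (hr : 0 < r) {F : ℂ × ℂ} (h : Gl F) : Gl (r • F) := by
  rw [Gl_iff, Dc_smul]
  have := (Gl_iff F).1 h
  positivity

section

variable {φ : ℝ → ℝ} {q : ℝ}

theorem phi_conv (hR : RCp (wq φ q)) : ConvexOn ℝ (Ici 1) φ := by
  have hc := lineW hR (F := Fd) (H := Hd) Hd_n (κ := 1) (fun τ => by rw [Fd_D, Fd_D0]; ring)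
  have val : ∀ τ : ℝ, 1 ≤ τ → wq φ q (Fd + τ • Hd) = φ τ := by
    intro τ hτ
    have hv : vv (Fd + τ • Hd) = 1 := by
      rw [Fd_line]
      unfold vv
      simp only [Complex.norm_real, Real.norm_eq_abs]
      rw [abs_of_nonneg (by linarith), abs_of_nonneg (by linarith)]
      ring
    unfold wq
    rw [hv, Fd_K hτ, Real.one_rpow, one_mul]
  refine ⟨convex_Ici 1, fun x hx y hy a b ha hb hab => ?_⟩
  have hx' : (1 : ℝ) ≤ x := hx
  have hy' : (1 : ℝ) ≤ y := hy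
  have hz' : (1 : ℝ) ≤ a • x + b • y := (convex_Ici (1 : ℝ)) hx hy ha hb hab
  have h1 : x ∈ {τ : ℝ | 0 < Dc Fd + 1 * τ} := by
    show 0 < Dc Fd + 1 * x
    rw [Fd_D0]; linarith
  have h2 : y ∈ {τ : ℝ | 0 < Dc Fd + 1 * τ} := by
    show 0 < Dc Fd + 1 * y
    rw [Fd_D0]; linarith
  have := hc.2 h1 h2 ha hb hab
  simp only at this
  rw [val _ hx', val _ hy', val _ hz'] at this
  exact this

theorem phi_mono (hR : RCp (wq φ q)) {t1 t2 : ℝ} (h1 : 1 ≤ t1) (h12 : t1 ≤ t2) :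
    t1 ^ (q / 2) * φ t1 ≤ t2 ^ (q / 2) * φ t2 := by
  refine mono_gen (h := fun t => t ^ (q / 2) * φ t) hR (fun F hF hD => ?_) h1 h12
  have hv := vv_pos hF
  have hK1 := Kc_ge hF
  have hKp : 0 < Kc F := by linarith
  have h3 : vv F ^ 2 * Kc F = 1 := by rw [← Dc_eq' hF, hD]
  have h4 : Kc F = vv F ^ (-2 : ℝ) := by
    rw [Real.rpow_neg hv.le, Real.rpow_two]
    exact eq_inv_of_mul_eq_one_right h3
  unfold wq
  show vv F ^ (-q) * φ (Kc F) = Kc F ^ (q / 2) * φ (Kc F)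
  congr 1
  rw [h4, ← Real.rpow_mul hv.le]
  congr 1
  ring

end

end Pool.Agent.Q187.HN
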