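import Pool.Agent.Q187.HN.Du

/-! # Isotropic and homogeneous functions on matrices with positive determinant -/

set_option autoImplicit false

namespace Pool.Agent.Q187.HN

open MeasureTheory Set Filter Topology
open Pool.Agent.Y273.VI (RCp Tm T_meas RCp_of det_cab Rp)
open Pool.Agent.W360.MQ (cab)
open Pool.Agent.W523.MQ.OM (T)
open Pool.Agent.Q187.VI

/-- the dual function of `wq φ q`, of degree `2 + q` -/
noncomputable def w2 (φ : ℝ → ℝ) (q : ℝ) (F : ℂ × ℂ) : ℝ := Dc F * wq φ q ((Dc F)⁻¹ • F)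

theorem supp_dual {φ : ℝ → ℝ} {q : ℝ} (hq : 0 < q) (hR : RCp (wq φ q)) (h1 : 0 ≤ φ 1)
    {F0 : ℂ × ℂ} (h0 : Gl F0) :
    ∃ a b k : ℝ, 0 ≤ a ∧ 0 ≤ b ∧ ∀ F, Gl F →
      w2 φ q F0 + a * (‖F.2‖ - ‖F0.2‖) + b * (‖F.1‖ - ‖F0.1‖) + k * (Dc F - Dc F0)
        ≤ w2 φ q F := by
  have hD0 : 0 < Dc F0 := (Gl_iff F0).1 h0
  obtain ⟨a, b, k, ha, hb, hS⟩ := supp_gen hq hR h1 (Gl_smul (inv_pos.2 hD0) h0)
  have hn : ∀ F : ℂ × ℂ, 0 < Dc F → ‖((Dc F)⁻¹ • F).1‖ = ‖F.1‖ / Dc F ∧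
      ‖((Dc F)⁻¹ • F).2‖ = ‖F.2‖ / Dc F ∧ Dc ((Dc F)⁻¹ • F) = 1 / Dc F := by
    intro F hF
    refine ⟨?_, ?_, ?_⟩
    · simp only [Prod.smul_fst, norm_smul, Real.norm_eq_abs, abs_of_pos (inv_pos.2 hF)]
      ring
    · simp only [Prod.smul_snd, norm_smul, Real.norm_eq_abs, abs_of_pos (inv_pos.2 hF)]
      ring
    · rw [Dc_smul]; field_simp
  obtain ⟨e1, e2, e3⟩ := hn F0 hD0
  set c0 : ℝ := wq φ q ((Dc F0)⁻¹ • F0) - a * (‖F0.2‖ / Dc F0) - b * (‖F0.1‖ / Dc F0)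
    - k * (1 / Dc F0) with hc0
  refine ⟨a, b, c0, ha, hb, fun F hF => ?_⟩
  have hD : 0 < Dc F := (Gl_iff F).1 hF
  obtain ⟨f1, f2, f3⟩ := hn F hD
  have h2 := hS _ (Gl_smul (inv_pos.2 hD) hF)
  rw [e1, e2, e3, f1, f2, f3] at h2
  have h3 := mul_le_mul_of_nonneg_left h2 hD.le
  refine le_trans (le_of_eq ?_) h3
  unfold w2
  rw [hc0]
  field_simp
  ring

theorem meas_dual {φ : ℝ → ℝ} {q : ℝ} (hR : RCp (wq φ q)) (F₀ : Matrix (Fin 2) (Fin 2) ℝ)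
    {Ω : Set (Fin 2 → ℝ)} {ϑ : (Fin 2 → ℝ) → (Fin 2 → ℝ)}
    (hpos : ∀ᵐ x ∂(volume.restrict Ω), ‖(T F₀ (fderiv ℝ ϑ x)).2‖ < ‖(T F₀ (fderiv ℝ ϑ x)).1‖) :
    AEStronglyMeasurable (fun x => w2 φ q (T F₀ (fderiv ℝ ϑ x))) (volume.restrict Ω) := by
  have h1 := meas_q hR F₀ hpos
  have hm : Measurable (fun F : ℂ × ℂ => Dc F * ((Dc F)⁻¹) ^ (-q)) := by
    unfold Dc
    exact Measurable.mul (by fun_prop) (Measurable.pow_const (by fun_prop) _)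
  have h2 := (hm.comp (T_meas F₀ ϑ)).aestronglyMeasurable (μ := volume.restrict Ω)
  refine (h2.mul h1).congr ?_
  filter_upwards [hpos] with x hx
  have hD : 0 < Dc (T F₀ (fderiv ℝ ϑ x)) := (Gl_iff _).1 hx
  simp only [Function.comp, Pi.mul_apply]
  unfold w2
  rw [wq_smul φ q (inv_pos.2 hD) hx]
  ring

/-- from a supporting function in the moduli to one in the entries -/
theorem poly_of {w : ℂ × ℂ → ℝ} {W : Matrix (Fin 2) (Fin 2) ℝ → ℝ}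
    (hW' : ∀ A : Matrix (Fin 2) (Fin 2) ℝ, 0 < A.det → W A = w (cab A))
    {F₀ : Matrix (Fin 2) (Fin 2) ℝ} (h0 : 0 < F₀.det)
    (hs : ∃ a b k : ℝ, 0 ≤ a ∧ 0 ≤ b ∧ ∀ F, Gl F →
      w (cab F₀) + a * (‖F.2‖ - ‖(cab F₀).2‖) + b * (‖F.1‖ - ‖(cab F₀).1‖)
        + k * (Dc F - Dc (cab F₀)) ≤ w F) :
    ∃ (B : Matrix (Fin 2) (Fin 2) ℝ) (c : ℝ), ∀ A : Matrix (Fin 2) (Fin 2) ℝ, 0 < A.det →
      W F₀ + ∑ i, ∑ j, B i j * (A i j - F₀ i j) + c * (A.det - F₀.det) ≤ W A := by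
  obtain ⟨a, b, k, ha, hb, hS⟩ := hs
  obtain ⟨p1, q1, h1⟩ := lin_norm (cab F₀).1
  obtain ⟨p2, q2, h2⟩ := lin_norm (cab F₀).2
  refine ⟨!![(b * p1 + a * p2) / 2, (-(b * q1) + a * q2) / 2;
    (b * q1 + a * q2) / 2, (b * p1 - a * p2) / 2], k, fun A hA => ?_⟩
  have h3 := hS (cab A) ((det_cab A).1 hA)
  have h4 := mul_le_mul_of_nonneg_left (h1 (cab A).1) hb
  have h5 := mul_le_mul_of_nonneg_left (h2 (cab A).2) ha
  obtain ⟨r1, r2, r3, r4⟩ := cab_re A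
  obtain ⟨s1, s2, s3, s4⟩ := cab_re F₀
  rw [r1, r2, s1, s2] at h4
  rw [r3, r4, s3, s4] at h5
  have e1 : Dc (cab A) = A.det := (Pool.Agent.W74.MQ.OPN.main A).2.symm
  have e2 : Dc (cab F₀) = F₀.det := (Pool.Agent.W74.MQ.OPN.main F₀).2.symm
  rw [e1, e2] at h3
  rw [hW' A hA, hW' F₀ h0]
  simp only [Fin.sum_univ_two, Matrix.of_apply, Matrix.cons_val', Matrix.cons_val_zero,
    Matrix.cons_val_one, Matrix.cons_val_fin_one]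
  linarith

/-- quasiconvexity from a supporting function -/
theorem quasi_of {w : ℂ × ℂ → ℝ} {W : Matrix (Fin 2) (Fin 2) ℝ → ℝ}
    (hW' : ∀ A : Matrix (Fin 2) (Fin 2) ℝ, 0 < A.det → W A = w (cab A))
    {F₀ : Matrix (Fin 2) (Fin 2) ℝ} (h0 : 0 < F₀.det)
    (hs : ∃ a b k : ℝ, 0 ≤ a ∧ 0 ≤ b ∧ ∀ F, Gl F →
      w (cab F₀) + a * (‖F.2‖ - ‖(cab F₀).2‖) + b * (‖F.1‖ - ‖(cab F₀).1‖)
        + k * (Dc F - Dc (cab F₀)) ≤ w F) {Ω : Set (Fin 2 → ℝ)}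
    {ϑ : (Fin 2 → ℝ) → (Fin 2 → ℝ)} (ht : Tm Ω ϑ)
    (hm : (∀ᵐ x ∂(volume.restrict Ω), ‖(T F₀ (fderiv ℝ ϑ x)).2‖ < ‖(T F₀ (fderiv ℝ ϑ x)).1‖) →
      AEStronglyMeasurable (fun x => w (T F₀ (fderiv ℝ ϑ x))) (volume.restrict Ω))
    (hpos : ∀ᵐ x ∂(volume.restrict Ω), 0 < (F₀ + LinearMap.toMatrix'
      ((fderiv ℝ ϑ x : (Fin 2 → ℝ) →L[ℝ] (Fin 2 → ℝ)) :
        (Fin 2 → ℝ) →ₗ[ℝ] (Fin 2 → ℝ))).det)
    (hfin : ∫⁻ x in Ω, ENNReal.ofReal (W (F₀ + LinearMap.toMatrix'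
      ((fderiv ℝ ϑ x : (Fin 2 → ℝ) →L[ℝ] (Fin 2 → ℝ)) :
        (Fin 2 → ℝ) →ₗ[ℝ] (Fin 2 → ℝ)))) ≠ ⊤) :
    IntegrableOn (fun x => W (F₀ + LinearMap.toMatrix'
      ((fderiv ℝ ϑ x : (Fin 2 → ℝ) →L[ℝ] (Fin 2 → ℝ)) :
        (Fin 2 → ℝ) →ₗ[ℝ] (Fin 2 → ℝ)))) Ω ∧
    W F₀ * (volume Ω).toReal ≤ ∫ x in Ω, W (F₀ + LinearMap.toMatrix'
      ((fderiv ℝ ϑ x : (Fin 2 → ℝ) →L[ℝ] (Fin 2 → ℝ)) :
        (Fin 2 → ℝ) →ₗ[ℝ] (Fin 2 → ℝ))) := by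
  have hpos' : ∀ᵐ x ∂(volume.restrict Ω),
      ‖(T F₀ (fderiv ℝ ϑ x)).2‖ < ‖(T F₀ (fderiv ℝ ϑ x)).1‖ := by
    filter_upwards [hpos] with x hx
    exact (det_cab _).1 hx
  have hev : (fun x => W (F₀ + LinearMap.toMatrix'
      ((fderiv ℝ ϑ x : (Fin 2 → ℝ) →L[ℝ] (Fin 2 → ℝ)) :
        (Fin 2 → ℝ) →ₗ[ℝ] (Fin 2 → ℝ)))) =ᵐ[volume.restrict Ω]
      fun x => w (T F₀ (fderiv ℝ ϑ x)) := by
    filter_upwards [hpos] with x hx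
    exact hW' _ hx
  have hfin' : ∫⁻ x in Ω, ENNReal.ofReal (w (T F₀ (fderiv ℝ ϑ x))) ≠ ⊤ := by
    have e := lintegral_congr_ae (hev.fun_comp ENNReal.ofReal)
    simp only [Function.comp] at e
    rw [← e]
    exact hfin
  obtain ⟨h1, h2⟩ := main_poly ht (hm hpos') hs hpos' hfin'
  refine ⟨h1.congr_fun_ae hev.symm, ?_⟩
  rw [integral_congr_ae hev, hW' F₀ h0]
  exact h2

/-- isotropy on the matrices with positive determinant -/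
def Iso (W : Matrix (Fin 2) (Fin 2) ℝ → ℝ) : Prop :=
  ∀ R ∈ Matrix.specialOrthogonalGroup (Fin 2) ℝ, ∀ Q ∈ Matrix.specialOrthogonalGroup (Fin 2) ℝ,
    ∀ A, 0 < A.det → W (R * A * Q) = W A

/-- homogeneity on the matrices with positive determinant -/
def Hom (p : ℝ) (W : Matrix (Fin 2) (Fin 2) ℝ → ℝ) : Prop :=
  ∀ c : ℝ, 0 < c → ∀ A : Matrix (Fin 2) (Fin 2) ℝ, 0 < A.det → W (c • A) = c ^ p * W A

theorem form {q : ℝ} {W : Matrix (Fin 2) (Fin 2) ℝ → ℝ} (hI : Iso W) (hH : Hom (-q) W)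
    (A : Matrix (Fin 2) (Fin 2) ℝ) (hA : 0 < A.det) :
    W A = wq (fun t => W !![t, 0; 0, 1]) q (cab A) := by
  obtain ⟨a, b, hab⟩ := Pool.Agent.W22.HM.normal_form A
  have hgl : Gl (cab A) := (det_cab A).1 hA
  have hv := vv_pos hgl
  have hs : 0 < ss (cab A) := lt_of_lt_of_le hv ss_ge
  rw [← hI _ (Pool.Agent.W22.HM.rot_mem a) _ (Pool.Agent.W22.HM.rot_mem b) A hA, hab]
  show W !![ss (cab A), 0; 0, vv (cab A)] = _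
  have e : (!![ss (cab A), 0; 0, vv (cab A)] : Matrix (Fin 2) (Fin 2) ℝ)
      = vv (cab A) • !![ss (cab A) / vv (cab A), 0; 0, 1] := by
    ext i j
    fin_cases i <;> fin_cases j <;> simp
    field_simp
  rw [e, hH _ hv _ (by rw [Matrix.det_fin_two_of]; have := div_pos hs hv; linarith)]
  unfold wq
  rw [Kc_eq]

theorem inv_mem {R : Matrix (Fin 2) (Fin 2) ℝ}
    (hR : R ∈ Matrix.specialOrthogonalGroup (Fin 2) ℝ) :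
    R⁻¹ ∈ Matrix.specialOrthogonalGroup (Fin 2) ℝ ∧ R.det = 1 := by
  rw [Matrix.mem_specialOrthogonalGroup_iff] at hR
  obtain ⟨h1, h2⟩ := hR
  have h3 := (Matrix.mem_orthogonalGroup_iff (Fin 2) ℝ).1 h1
  have h4 := (Matrix.mem_orthogonalGroup_iff' (Fin 2) ℝ).1 h1
  have h5 : R⁻¹ = R.transpose := Matrix.inv_eq_right_inv h3
  refine ⟨?_, h2⟩
  rw [Matrix.mem_specialOrthogonalGroup_iff, h5]
  refine ⟨(Matrix.mem_orthogonalGroup_iff (Fin 2) ℝ).2 (by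
    rw [Matrix.transpose_transpose]; exact h4), ?_⟩
  rw [Matrix.det_transpose, h2]

theorem dual_iso {W : Matrix (Fin 2) (Fin 2) ℝ → ℝ} (hI : Iso W) :
    Iso (fun A => A.det * W A⁻¹) := by
  intro R hR Q hQ A hA
  obtain ⟨r1, r2⟩ := inv_mem hR
  obtain ⟨q1, q2⟩ := inv_mem hQ
  show (R * A * Q).det * W (R * A * Q)⁻¹ = A.det * W A⁻¹
  rw [Matrix.mul_inv_rev, Matrix.mul_inv_rev, ← mul_assoc, hI _ q1 _ r1 _ (det_inv_pos hA),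
    Matrix.det_mul, Matrix.det_mul, r2, q2]
  ring

theorem dual_hom {p : ℝ} {W : Matrix (Fin 2) (Fin 2) ℝ → ℝ} (hH : Hom p W) :
    Hom (2 - p) (fun A => A.det * W A⁻¹) := by
  intro c hc A hA
  show (c • A).det * W (c • A)⁻¹ = c ^ (2 - p) * (A.det * W A⁻¹)
  have e : (c • A)⁻¹ = c⁻¹ • A⁻¹ := by
    rw [inv_eq_adj, inv_eq_adj, Matrix.det_smul, Matrix.adjugate_smul, smul_smul, smul_smul]
    congr 1
    simp only [Fintype.card_fin]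
    field_simp
    norm_num
  rw [e, hH _ (inv_pos.2 hc) _ (det_inv_pos hA), Matrix.det_smul]
  simp only [Fintype.card_fin]
  rw [Real.rpow_sub hc, Real.inv_rpow hc.le]
  have : c ^ (2 : ℝ) = c ^ 2 := by norm_cast
  rw [this]
  field_simp

theorem form_dual {q : ℝ} {W : Matrix (Fin 2) (Fin 2) ℝ → ℝ} (hI : Iso W) (hH : Hom (2 + q) W)
    (A : Matrix (Fin 2) (Fin 2) ℝ) (hA : 0 < A.det) :
    W A = w2 (fun t => (!![t, 0; 0, 1] : Matrix (Fin 2) (Fin 2) ℝ).det *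
      W (!![t, 0; 0, 1] : Matrix (Fin 2) (Fin 2) ℝ)⁻¹) q (cab A) := by
  have hH2 : Hom (-q) (fun A => A.det * W A⁻¹) := by
    have := dual_hom hH
    have e : 2 - (2 + q) = -q := by ring
    rwa [e] at this
  have h2 : A⁻¹.det * W A⁻¹⁻¹ = wq (fun t => (!![t, 0; 0, 1] : Matrix (Fin 2) (Fin 2) ℝ).det *
      W (!![t, 0; 0, 1] : Matrix (Fin 2) (Fin 2) ℝ)⁻¹) q (cab A⁻¹) :=
    form (dual_iso hI) hH2 A⁻¹ (det_inv_pos hA)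
  rw [Matrix.nonsing_inv_nonsing_inv A (isUnit_iff_ne_zero.2 hA.ne'), det_inv_eq] at h2
  obtain ⟨c1, c2⟩ := cab_inv A hA
  have hD : Dc (cab A) = A.det := (Pool.Agent.W74.MQ.OPN.main A).2.symm
  unfold w2
  rw [hD, ← wq_congr _ q c1 c2, ← h2, ← mul_assoc, mul_inv_cancel₀ hA.ne', one_mul]

end Pool.Agent.Q187.HN
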