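import Pool.Agent.Q187.HN.Su
import Pool.Agent.Q187.VI.Int

/-! # Integration -/

set_option autoImplicit false

namespace Pool.Agent.Q187.HN

open MeasureTheory Set Filter Topology
open Pool.Agent.Y273.VI (RCp Tm T_meas pt_int pt_ql pt_bd RCp_of det_cab Rp)
open Pool.Agent.W360.MQ (cab)
open Pool.Agent.W523.MQ.OM (T T_cont)
open Pool.Agent.Q187.VI

/-- quasiconvexity at a point with a polyconvex supporting function -/
theorem main_poly {w : ℂ × ℂ → ℝ} {F₀ : Matrix (Fin 2) (Fin 2) ℝ} {Ω : Set (Fin 2 → ℝ)}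
    {ϑ : (Fin 2 → ℝ) → (Fin 2 → ℝ)} (ht : Tm Ω ϑ)
    (hm : AEStronglyMeasurable (fun x => w (T F₀ (fderiv ℝ ϑ x))) (volume.restrict Ω))
    (hs : ∃ a b k : ℝ, 0 ≤ a ∧ 0 ≤ b ∧ ∀ F, Gl F →
      w (cab F₀) + a * (‖F.2‖ - ‖(cab F₀).2‖) + b * (‖F.1‖ - ‖(cab F₀).1‖)
        + k * (Dc F - Dc (cab F₀)) ≤ w F)
    (hpos : ∀ᵐ x ∂(volume.restrict Ω), ‖(T F₀ (fderiv ℝ ϑ x)).2‖ < ‖(T F₀ (fderiv ℝ ϑ x)).1‖)
    (hfin : ∫⁻ x in Ω, ENNReal.ofReal (w (T F₀ (fderiv ℝ ϑ x))) ≠ ⊤) :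
    IntegrableOn (fun x => w (T F₀ (fderiv ℝ ϑ x))) Ω ∧
      w (cab F₀) * (volume Ω).toReal ≤ ∫ x in Ω, w (T F₀ (fderiv ℝ ϑ x)) := by
  obtain ⟨a, b, k, ha, hb, hS⟩ := hs
  set L : ℂ × ℂ → ℝ := fun F => (a * ‖F.2‖ + b * ‖F.1‖) + k * (‖F.1‖ ^ 2 - ‖F.2‖ ^ 2) with hL
  obtain ⟨hLc, hLq⟩ := lin_ql (k := k) ha hb (cab F₀)
  have i2 : IntegrableOn (fun x => L (T F₀ (fderiv ℝ ϑ x))) Ω := pt_int hLc F₀ ht
  have l2 : L (cab F₀) * (volume Ω).toReal ≤ ∫ x in Ω, L (T F₀ (fderiv ℝ ϑ x)) :=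
    pt_ql hLc F₀ hLq ht
  have hlow : ∀ᵐ x ∂(volume.restrict Ω), w (cab F₀)
      + (L (T F₀ (fderiv ℝ ϑ x)) - L (cab F₀)) ≤ w (T F₀ (fderiv ℝ ϑ x)) := by
    filter_upwards [hpos] with x hx
    have := hS _ hx
    have e : ∀ F : ℂ × ℂ, Dc F = ‖F.1‖ ^ 2 - ‖F.2‖ ^ 2 := fun F => rfl
    simp only [hL]
    rw [e, e] at this
    linarith
  have hvol : volume Ω ≠ ⊤ := ht.fin.ne
  have ic : ∀ r : ℝ, IntegrableOn (fun _ : Fin 2 → ℝ => r) Ω := fun r => integrableOn_const hvol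
  set Gx : (Fin 2 → ℝ) → ℝ := fun x => w (cab F₀)
      + (L (T F₀ (fderiv ℝ ϑ x)) - L (cab F₀)) with hGx
  have iG : IntegrableOn Gx Ω := (ic _).add (i2.sub (ic _))
  have vG : ∫ x in Ω, Gx x = w (cab F₀) * (volume Ω).toReal
      + (∫ x in Ω, L (T F₀ (fderiv ℝ ϑ x))) - L (cab F₀) * (volume Ω).toReal := by
    have cst : ∀ r : ℝ, ∫ _ in Ω, r ∂(volume : Measure (Fin 2 → ℝ)) = r * (volume Ω).toReal := by
      intro r
      rw [setIntegral_const, smul_eq_mul, mul_comm]; rfl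
    have e1 : ∫ x in Ω, Gx x = (∫ _ in Ω, w (cab F₀))
        + ∫ x in Ω, (L (T F₀ (fderiv ℝ ϑ x)) - L (cab F₀)) :=
      integral_add (f := fun _ => w (cab F₀))
        (g := fun x => L (T F₀ (fderiv ℝ ϑ x)) - L (cab F₀)) (ic _) (i2.sub (ic _))
    have e4 : (∫ x in Ω, (L (T F₀ (fderiv ℝ ϑ x)) - L (cab F₀)))
        = (∫ x in Ω, L (T F₀ (fderiv ℝ ϑ x))) - ∫ _ in Ω, L (cab F₀) :=
      integral_sub (f := fun x => L (T F₀ (fderiv ℝ ϑ x)))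
        (g := fun _ => L (cab F₀)) i2 (ic _)
    rw [e1, e4, cst, cst]
    ring
  have hWp : IntegrableOn (fun x => max (w (T F₀ (fderiv ℝ ϑ x))) 0) Ω := by
    refine ⟨(hm.aemeasurable.max aemeasurable_const).aestronglyMeasurable, ?_⟩
    rw [HasFiniteIntegral]
    refine lt_of_le_of_lt (lintegral_mono fun x => ?_) (lt_top_iff_ne_top.2 hfin)
    rw [Real.enorm_eq_ofReal (le_max_right _ _)]
    rcases le_total 0 (w (T F₀ (fderiv ℝ ϑ x))) with h1 | h1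
    · rw [max_eq_left h1]
    · rw [max_eq_right h1]; simp
  have hWi : IntegrableOn (fun x => w (T F₀ (fderiv ℝ ϑ x))) Ω := by
    refine Integrable.mono' (hWp.add iG.abs) hm ?_
    filter_upwards [hlow] with x hx
    rw [Real.norm_eq_abs, Pi.add_apply]
    have hx' : Gx x ≤ w (T F₀ (fderiv ℝ ϑ x)) := hx
    rcases le_total 0 (w (T F₀ (fderiv ℝ ϑ x))) with h1 | h1
    · rw [abs_of_nonneg h1]
      have := le_max_left (w (T F₀ (fderiv ℝ ϑ x))) 0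
      have := abs_nonneg (Gx x)
      linarith
    · rw [abs_of_nonpos h1]
      have := le_max_right (w (T F₀ (fderiv ℝ ϑ x))) 0
      have := neg_abs_le (Gx x)
      linarith
  refine ⟨hWi, ?_⟩
  have := integral_mono_ae iG hWi hlow
  rw [vG] at this
  linarith

theorem meas_q {φ : ℝ → ℝ} {q : ℝ} (hR : RCp (wq φ q)) (F₀ : Matrix (Fin 2) (Fin 2) ℝ)
    {Ω : Set (Fin 2 → ℝ)} {ϑ : (Fin 2 → ℝ) → (Fin 2 → ℝ)}
    (hpos : ∀ᵐ x ∂(volume.restrict Ω), ‖(T F₀ (fderiv ℝ ϑ x)).2‖ < ‖(T F₀ (fderiv ℝ ϑ x)).1‖) :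
    AEStronglyMeasurable (fun x => wq φ q (T F₀ (fderiv ℝ ϑ x))) (volume.restrict Ω) := by
  have hmono : Monotone (fun t => (max t 1) ^ (q / 2) * φ (max t 1)) := by
    intro s t hst
    exact phi_mono hR (le_max_right _ _) (max_le_max hst le_rfl)
  have hK : Measurable (fun F : ℂ × ℂ => Kc F) := by
    unfold Kc
    exact Measurable.div (by fun_prop) (by fun_prop)
  have hV : Measurable (fun F : ℂ × ℂ => vv F ^ (-q)) := by
    unfold vv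
    exact Measurable.pow_const (by fun_prop) _
  have hK2 : Measurable (fun F : ℂ × ℂ => (max (Kc F) 1) ^ (-(q / 2))) :=
    Measurable.pow_const (hK.max measurable_const) _
  have hm1 : Measurable (fun F : ℂ × ℂ => vv F ^ (-q) * ((max (Kc F) 1) ^ (-(q / 2))
      * ((max (Kc F) 1) ^ (q / 2) * φ (max (Kc F) 1)))) :=
    hV.mul (hK2.mul (hmono.measurable.comp hK))
  have hm2 := (hm1.comp (T_meas F₀ ϑ)).aestronglyMeasurable (μ := volume.restrict Ω)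
  refine hm2.congr ?_
  filter_upwards [hpos] with x hx
  have hK1 : 1 ≤ Kc (T F₀ (fderiv ℝ ϑ x)) := Kc_ge hx
  simp only [Function.comp]
  rw [max_eq_left hK1, ← mul_assoc (Kc _ ^ (-(q / 2))), ← Real.rpow_add (by linarith)]
  simp [wq]

open scoped Matrix.Norms.L2Operator in
theorem val_q (h : ℝ → ℝ) (q : ℝ) {A : Matrix (Fin 2) (Fin 2) ℝ} (hA : 0 < A.det) :
    A.det ^ (-(q / 2)) * h (‖A‖ ^ 2 / A.det)
      = wq (fun t => t ^ (-(q / 2)) * h t) q (cab A) := by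
  obtain ⟨h1, h2⟩ := Pool.Agent.W74.MQ.OPN.main A
  have hgl : Gl (cab A) := (det_cab A).1 hA
  have hv := vv_pos hgl
  have hK1 := Kc_ge hgl
  have hD : A.det = Dc (cab A) := h2
  have e1 : ‖A‖ ^ 2 / A.det = Kc (cab A) := by
    rw [hD, Dc_eq, Kc_eq, h1]
    have hs : 0 < ss (cab A) := lt_of_lt_of_le hv ss_ge
    have : ‖(cab A).1‖ + ‖(cab A).2‖ = ss (cab A) := rfl
    rw [this]
    field_simp
  rw [e1, hD, Dc_eq' hgl, Real.mul_rpow (by positivity) (by linarith)]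
  unfold wq
  have e2 : (vv (cab A) ^ 2) ^ (-(q / 2)) = vv (cab A) ^ (-q) := by
    rw [← Real.rpow_natCast, ← Real.rpow_mul hv.le]
    congr 1
    push_cast
    ring
  rw [e2]
  ring

end Pool.Agent.Q187.HN
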