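import Pool.Agent.Q187.HN.Ga

/-! # Polyconvexity of nonnegative homogeneous functions of negative degree -/

set_option autoImplicit false

namespace Pool.Agent.Q187.HN

open Set Filter Topology
open Pool.Agent.Y273.VI (RCp)
open Pool.Agent.Q187.VI

section

variable {φ : ℝ → ℝ} {q : ℝ}

theorem phi_nonneg (hR : RCp (wq φ q)) (h1 : 0 ≤ φ 1) {t : ℝ} (ht : 1 ≤ t) : 0 ≤ φ t := by
  have := phi_mono hR le_rfl ht
  rw [Real.one_rpow, one_mul] at this
  have h2 : 0 < t ^ (q / 2) := Real.rpow_pos_of_pos (by linarith) _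
  by_contra hcon
  rw [not_le] at hcon
  nlinarith

/-- a subgradient compatible with monotonicity -/
theorem sub_mono (hq : 0 < q) (hR : RCp (wq φ q)) (h1 : 0 ≤ φ 1) {t0 : ℝ} (ht0 : 1 ≤ t0) :
    ∃ B, (∀ t, 1 ≤ t → φ t0 + B * (t - t0) ≤ φ t) ∧ 0 ≤ 2 * t0 * B + q * φ t0 := by
  rcases eq_or_lt_of_le ht0 with h | h
  · refine ⟨-(q / 2) * φ 1, fun t ht => ?_, ?_⟩
    · rw [← h]
      have h2 := phi_mono hR le_rfl ht
      rw [Real.one_rpow, one_mul] at h2
      have htp : 0 < t := by linarith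
      have h3 := bern (r := q / 2) (by linarith) htp
      have h4 : t ^ (-(q / 2)) * (t ^ (q / 2) * φ t) = φ t := by
        rw [← mul_assoc, ← Real.rpow_add htp]; simp
      have h5 := mul_le_mul_of_nonneg_left h2 (Real.rpow_nonneg htp.le (-(q / 2)))
      rw [h4] at h5
      have h6 := mul_le_mul_of_nonneg_right h3 h1
      linarith
    · rw [← h]; nlinarith
  · obtain ⟨B, hB⟩ := subg (phi_conv hR) (mem_Ici.2 le_rfl) h
      (mem_Ici.2 (by linarith : (1 : ℝ) ≤ t0 + 1)) (by linarith)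
    refine ⟨B, fun t ht => hB t (mem_Ici.2 ht), ?_⟩
    have ht0p : 0 < t0 := by linarith
    have hφ0 := phi_nonneg hR h1 ht0
    -- the comparison function
    have hd : HasDerivAt (fun t : ℝ => φ t0 * (t / t0) ^ (-(q / 2))) (-(q / 2) * φ t0 / t0) t0 := by
      have h2 : HasDerivAt (fun t : ℝ => t / t0) (1 / t0) t0 := (hasDerivAt_id _).div_const t0
      have h3 := (h2.rpow_const (p := -(q / 2)) (Or.inl (by rw [div_self ht0p.ne']; norm_num))).const_mul
        (φ t0)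
      refine h3.congr_deriv ?_
      rw [div_self ht0p.ne', Real.one_rpow]
      ring
    have h2 := hd.tendsto_slope_zero_left
    have h3 : -(q / 2) * φ t0 / t0 ≤ B := by
      refine le_of_tendsto h2 ?_
      have hin : Ioo (1 - t0) 0 ∈ 𝓝[<] (0 : ℝ) := Ioo_mem_nhdsLT (by linarith)
      filter_upwards [hin] with ε hε
      have ht1 : 1 < t0 + ε := by linarith [hε.1]
      have htp : 0 < t0 + ε := by linarith
      have h4 := hB (t0 + ε) (mem_Ici.2 ht1.le)
      have h5 := phi_mono hR ht1.le (by linarith [hε.2] : t0 + ε ≤ t0)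
      have h6 : φ (t0 + ε) ≤ φ t0 * ((t0 + ε) / t0) ^ (-(q / 2)) := by
        have h7 : (t0 + ε) ^ (-(q / 2)) * ((t0 + ε) ^ (q / 2) * φ (t0 + ε)) = φ (t0 + ε) := by
          rw [← mul_assoc, ← Real.rpow_add htp]; simp
        have h8 := mul_le_mul_of_nonneg_left h5 (Real.rpow_nonneg htp.le (-(q / 2)))
        rw [h7] at h8
        refine h8.trans (le_of_eq ?_)
        rw [Real.div_rpow htp.le ht0p.le, Real.rpow_neg ht0p.le]
        field_simp
      rw [div_self ht0p.ne', Real.one_rpow, mul_one, smul_eq_mul]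
      have hε0 : ε < 0 := hε.2
      rw [inv_mul_eq_div, div_le_iff_of_neg hε0]
      linarith
    rw [div_le_iff₀ ht0p] at h3
    linarith

theorem supp_one (hq : 0 < q) (hR : RCp (wq φ q)) (h1 : 0 ≤ φ 1) {F0 : ℂ × ℂ} (h0 : Gl F0)
    (hv0 : vv F0 = 1) :
    ∃ a b k : ℝ, 0 ≤ a ∧ 0 ≤ b ∧ ∀ F, Gl F →
      wq φ q F0 + a * (‖F.2‖ - ‖F0.2‖) + b * (‖F.1‖ - ‖F0.1‖) + k * (Dc F - Dc F0)
        ≤ wq φ q F := by
  have hwn : ∀ F, Gl F → 0 ≤ wq φ q F := fun F hF =>
    mul_nonneg (Real.rpow_nonneg (vv_pos hF).le _) (phi_nonneg hR h1 (Kc_ge hF))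
  have hw0 : wq φ q F0 = φ (Kc F0) := by unfold wq; rw [hv0, Real.one_rpow, one_mul]
  rcases eq_or_lt_of_le (phi_nonneg hR h1 (Kc_ge h0)) with hz | hφ0
  · refine ⟨0, 0, 0, le_rfl, le_rfl, fun F hF => ?_⟩
    rw [hw0, ← hz]
    have := hwn F hF
    linarith
  obtain ⟨B, hB, hB1⟩ := sub_mono hq hR h1 (Kc_ge h0)
  set t0 := Kc F0 with ht0d
  have ht01 : 1 ≤ t0 := Kc_ge h0
  set A : ℝ := φ t0 - B * t0 with hA
  have hT0 : A + B * t0 = φ t0 := by rw [hA]; ring
  have hT : ∀ t, 1 ≤ t → A + B * t ≤ φ t := fun t ht => by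
    have := hB t ht
    rw [hA]; linarith
  rcases le_or_gt (q * A) ((q + 2) * B) with hc1 | hc1
  · rcases le_or_gt (-((q + 2) * B)) (q * A) with hc2 | hc2
    · -- the direct case
      have hBn : 0 ≤ B := by nlinarith
      refine ⟨(q + 2) * B + q * A, (q + 2) * B - q * A, -((q + 1) * B), by linarith, by linarith,
        fun F hF => ?_⟩
      have hv := vv_pos hF
      have h2 := alpha hq hc2 hc1 hv (ss_ge (F := F))
      have h3 : max 0 (vv F ^ (-q) * (A + B * (ss F / vv F))) ≤ wq φ q F := by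
        refine max_le (hwn F hF) ?_
        rw [← Kc_eq]
        exact mul_le_mul_of_nonneg_left (hT _ (Kc_ge hF)) (Real.rpow_nonneg hv.le _)
      refine le_trans (le_of_eq ?_) (h2.trans h3)
      rw [hw0, Dc_eq, Dc_eq]
      have h4 : ss F0 = t0 := by
        have : t0 = ss F0 / vv F0 := rfl
        rw [this, hv0, div_one]
      rw [hv0, h4, ← hT0]
      have h5 : ‖F0.1‖ = (t0 + 1) / 2 := by
        have e1 : ‖F0.1‖ + ‖F0.2‖ = t0 := h4
        have e2 : ‖F0.1‖ - ‖F0.2‖ = 1 := hv0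
        linarith
      have h6 : ‖F0.2‖ = (t0 - 1) / 2 := by
        have e1 : ‖F0.1‖ + ‖F0.2‖ = t0 := h4
        have e2 : ‖F0.1‖ - ‖F0.2‖ = 1 := hv0
        linarith
      rw [h5, h6]
      unfold ss vv
      ring
    · -- the lines with variable `|u_z|`
      have hBp : 0 < B := by
        by_contra hcon
        rw [not_lt] at hcon
        have e : q * φ t0 < B * (q * t0 - q - 2) := by rw [hA] at hc2; nlinarith
        rcases le_or_gt 0 (q * t0 - q - 2) with h3 | h3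
        · have : B * (q * t0 - q - 2) ≤ 0 := mul_nonpos_of_nonpos_of_nonneg hcon h3
          nlinarith
        · have h5 : -B * (2 * t0) ≤ q * φ t0 := by linarith
          have h6 : -B * (q + 2 - q * t0) ≤ -B * (2 * t0) :=
            mul_le_mul_of_nonneg_left (by nlinarith) (by linarith)
          linarith
      obtain ⟨b, k, hb, hk⟩ := gamma hq hR hv0 hT0 hT hφ0 hBp (by linarith)
      refine ⟨0, b, k, le_rfl, hb, fun F hF => ?_⟩
      have h2 := hk F hF
      rw [zero_mul, add_zero]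
      rcases le_or_gt (wq φ q F0 + b * (‖F.1‖ - ‖F0.1‖) + k * (Dc F - Dc F0)) 0 with h3 | h3
      · exact h3.trans (hwn F hF)
      · exact h2 h3
  · -- the lines with variable `|u_zbar|`
    obtain ⟨a, k, ha, hk⟩ := beta hq hR h0 hv0 hT0 hT hφ0 hB1 hc1.le
    refine ⟨a, 0, k, ha, le_rfl, fun F hF => ?_⟩
    have := hk F hF
    linarith

/-- supporting functions at all points -/
theorem supp_gen (hq : 0 < q) (hR : RCp (wq φ q)) (h1 : 0 ≤ φ 1) {F0 : ℂ × ℂ} (h0 : Gl F0) :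
    ∃ a b k : ℝ, 0 ≤ a ∧ 0 ≤ b ∧ ∀ F, Gl F →
      wq φ q F0 + a * (‖F.2‖ - ‖F0.2‖) + b * (‖F.1‖ - ‖F0.1‖) + k * (Dc F - Dc F0)
        ≤ wq φ q F := by
  set v0 := vv F0 with hv0d
  have hv0 : 0 < v0 := vv_pos h0
  have hi : 0 < v0⁻¹ := inv_pos.2 hv0
  have h2 : Gl (v0⁻¹ • F0) := Gl_smul hi h0
  have h3 : vv (v0⁻¹ • F0) = 1 := by
    rw [vv_smul hi, ← hv0d]; exact inv_mul_cancel₀ hv0.ne'
  obtain ⟨a, b, k, ha, hb, hS⟩ := supp_one hq hR h1 h2 h3
  have hZ : 0 < v0 ^ (-q) := Real.rpow_pos_of_pos hv0 _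
  have hsc : ∀ F, Gl F → v0 ^ (-q) * wq φ q (v0⁻¹ • F) = wq φ q F := by
    intro F hF
    rw [wq_smul φ q hi hF, ← mul_assoc, ← Real.mul_rpow hv0.le hi.le, mul_inv_cancel₀ hv0.ne',
      Real.one_rpow, one_mul]
  refine ⟨v0 ^ (-q) * a * v0⁻¹, v0 ^ (-q) * b * v0⁻¹, v0 ^ (-q) * k * (v0⁻¹) ^ 2, by positivity,
    by positivity, fun F hF => ?_⟩
  have h4 := hS (v0⁻¹ • F) (Gl_smul hi hF)
  have h5 := mul_le_mul_of_nonneg_left h4 hZ.le
  rw [hsc F hF] at h5
  refine le_trans (le_of_eq ?_) h5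
  rw [Dc_smul, Dc_smul, ← hsc F0 h0]
  simp only [Prod.smul_fst, Prod.smul_snd, norm_smul, Real.norm_eq_abs, abs_of_pos hi]
  ring

end

end Pool.Agent.Q187.HN
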