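import Pool.Agent.Q187.HN.Ho

/-! # The theorem for isotropic functions of degree outside `[0, 2]` -/

set_option autoImplicit false

namespace Pool.Agent.Q187.HN

open MeasureTheory Set Filter Topology
open Pool.Agent.Y273.VI (RCp Tm T_meas RCp_of det_cab Rp)
open Pool.Agent.W360.MQ (cab)
open Pool.Agent.W523.MQ.OM (T)
open Pool.Agent.Q187.VI

theorem one_mat : (!![1, 0; 0, 1] : Matrix (Fin 2) (Fin 2) ℝ) = 1 := Matrix.one_fin_two.symm

theorem all {p : ℝ} (hp : p < 0 ∨ 2 < p) {W : Matrix (Fin 2) (Fin 2) ℝ → ℝ} (hI : Iso W)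
    (hH : Hom p W) (hR : Rp W) (h1 : 0 ≤ W 1) :
    ∃ w : ℂ × ℂ → ℝ, (∀ A : Matrix (Fin 2) (Fin 2) ℝ, 0 < A.det → W A = w (cab A)) ∧
      (∀ F0 : ℂ × ℂ, Gl F0 → ∃ a b k : ℝ, 0 ≤ a ∧ 0 ≤ b ∧ ∀ F, Gl F →
        w F0 + a * (‖F.2‖ - ‖F0.2‖) + b * (‖F.1‖ - ‖F0.1‖) + k * (Dc F - Dc F0) ≤ w F) ∧
      (∀ (F₀ : Matrix (Fin 2) (Fin 2) ℝ) (Ω : Set (Fin 2 → ℝ))
        (ϑ : (Fin 2 → ℝ) → (Fin 2 → ℝ)),
        (∀ᵐ x ∂(volume.restrict Ω), ‖(T F₀ (fderiv ℝ ϑ x)).2‖ < ‖(T F₀ (fderiv ℝ ϑ x)).1‖) →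
        AEStronglyMeasurable (fun x => w (T F₀ (fderiv ℝ ϑ x))) (volume.restrict Ω)) ∧
      (∀ F : ℂ × ℂ, Gl F → 0 ≤ w F) := by
  rcases hp with hp | hp
  · have hH' : Hom (-(-p)) W := by rw [neg_neg]; exact hH
    set φ : ℝ → ℝ := fun t => W !![t, 0; 0, 1] with hφ
    have hφ1 : 0 ≤ φ 1 := by
      simp only [hφ, one_mat]; exact h1
    have hf := form hI hH'
    have hRc : RCp (wq φ (-p)) := RCp_of hf hR
    refine ⟨wq φ (-p), hf, fun F0 h0 => supp_gen (by linarith) hRc hφ1 h0,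
      fun F₀ Ω ϑ hpos => meas_q hRc F₀ hpos, fun F hF => ?_⟩
    exact mul_nonneg (Real.rpow_nonneg (vv_pos hF).le _) (phi_nonneg hRc hφ1 (Kc_ge hF))
  · have hH' : Hom (2 + (p - 2)) W := by
      have e : 2 + (p - 2) = p := by ring
      rw [e]; exact hH
    set φ : ℝ → ℝ := fun t => (!![t, 0; 0, 1] : Matrix (Fin 2) (Fin 2) ℝ).det *
      W (!![t, 0; 0, 1] : Matrix (Fin 2) (Fin 2) ℝ)⁻¹ with hφ
    have hφ1 : 0 ≤ φ 1 := by
      simp only [hφ, one_mat, inv_one, Matrix.det_one, one_mul]; exact h1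
    have hH2 : Hom (-(p - 2)) (fun A => A.det * W A⁻¹) := by
      have := dual_hom hH
      have e : 2 - p = -(p - 2) := by ring
      rwa [e] at this
    have hRc : RCp (wq φ (p - 2)) := RCp_of (form (dual_iso hI) hH2) (dual_roc hR)
    refine ⟨w2 φ (p - 2), form_dual hI hH', fun F0 h0 => supp_dual (by linarith) hRc hφ1 h0,
      fun F₀ Ω ϑ hpos => meas_dual hRc F₀ hpos, fun F hF => ?_⟩
    have hD : 0 < Dc F := (Gl_iff F).1 hF
    have hF' := Gl_smul (inv_pos.2 hD) hF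
    exact mul_nonneg hD.le
      (mul_nonneg (Real.rpow_nonneg (vv_pos hF').le _) (phi_nonneg hRc hφ1 (Kc_ge hF')))

/-- the necessary condition -/
theorem nec {p : ℝ} (hp : p < 0 ∨ 2 < p) {W : Matrix (Fin 2) (Fin 2) ℝ → ℝ} (hH : Hom p W)
    (hP : ∃ (B : Matrix (Fin 2) (Fin 2) ℝ) (c : ℝ), ∀ A : Matrix (Fin 2) (Fin 2) ℝ, 0 < A.det →
      W 1 + ∑ i, ∑ j, B i j * (A i j - (1 : Matrix (Fin 2) (Fin 2) ℝ) i j)
        + c * (A.det - (1 : Matrix (Fin 2) (Fin 2) ℝ).det) ≤ W A) : 0 ≤ W 1 := by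
  obtain ⟨B, c, hB⟩ := hP
  by_contra hcon
  rw [not_le] at hcon
  have hline : ∀ t : ℝ, 0 < t → W 1 + (B 0 0 + B 1 1) * (t - 1) + c * (t ^ 2 - 1)
      ≤ t ^ p * W 1 := by
    intro t ht
    have hd : (t • (1 : Matrix (Fin 2) (Fin 2) ℝ)).det = t ^ 2 := by
      rw [Matrix.det_smul, Matrix.det_one]; simp
    have h2 := hB (t • 1) (by rw [hd]; positivity)
    rw [hH t ht 1 (by simp), hd, Matrix.det_one] at h2
    simp only [Fin.sum_univ_two, Matrix.smul_apply, Matrix.one_apply, smul_eq_mul] at h2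
    norm_num at h2
    linarith
  set β : ℝ := B 0 0 + B 1 1 with hβ
  set M : ℝ := |W 1| + |β| + |c| with hM
  have hM0 : 0 ≤ M := by positivity
  have hneg : 0 < -W 1 := by linarith
  set R : ℝ := 1 + (M + 1) / (-W 1) with hR
  have hR1 : 1 ≤ R := by
    have : 0 ≤ (M + 1) / (-W 1) := by positivity
    linarith
  have e1 : R * W 1 = W 1 - (M + 1) := by
    have hne : W 1 ≠ 0 := hcon.ne
    rw [hR, div_neg, add_mul, neg_mul, div_mul_cancel₀ _ hne]
    ring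
  rcases hp with hp | hp
  · set t : ℝ := R ^ (1 / p) with ht
    have ht0 : 0 < t := Real.rpow_pos_of_pos (by linarith) _
    have ht1 : t ≤ 1 := Real.rpow_le_one_of_one_le_of_nonpos hR1
      (div_nonpos_of_nonneg_of_nonpos zero_le_one hp.le)
    have htq : t ^ p = R := by
      rw [ht, ← Real.rpow_mul (by linarith), one_div, inv_mul_cancel₀ hp.ne, Real.rpow_one]
    have h2 := hline t ht0
    rw [htq, e1] at h2
    have t1 : 0 ≤ 1 - t := by linarith
    have a1 : -|β| ≤ β * (t - 1) := by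
      have := abs_nonneg β
      have h3 := neg_abs_le (β * (t - 1))
      rw [abs_mul, abs_of_nonpos (by linarith : t - 1 ≤ 0)] at h3
      nlinarith
    have a3 : -|c| ≤ c * (t ^ 2 - 1) := by
      have := abs_nonneg c
      have h3 := neg_abs_le (c * (t ^ 2 - 1))
      have t2 : t ^ 2 - 1 ≤ 0 := by nlinarith
      rw [abs_mul, abs_of_nonpos t2] at h3
      nlinarith [sq_nonneg t]
    have a4 := neg_abs_le (W 1)
    linarith
  · set t : ℝ := R ^ (1 / (p - 2)) with ht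
    have ht1 : 1 ≤ t := Real.one_le_rpow hR1 (div_nonneg zero_le_one (by linarith))
    have ht0 : 0 < t := by linarith
    have htq : t ^ p = t ^ 2 * R := by
      have e2 : t ^ (p - 2) = R := by
        rw [ht, ← Real.rpow_mul (by linarith), one_div, inv_mul_cancel₀ (by linarith),
          Real.rpow_one]
      have e3 : t ^ p = t ^ (2 : ℝ) * t ^ (p - 2) := by
        rw [← Real.rpow_add ht0]; congr 1; ring
      rw [e3, e2]
      norm_cast
    have h2 := hline t ht0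
    rw [htq, mul_assoc, e1] at h2
    have t2 : 1 ≤ t ^ 2 := by nlinarith
    have a1 : -(|β| * t ^ 2) ≤ β * (t - 1) := by
      have := abs_nonneg β
      have h3 := neg_abs_le (β * (t - 1))
      rw [abs_mul, abs_of_nonneg (by linarith : 0 ≤ t - 1)] at h3
      have h4 := mul_le_mul_of_nonneg_left (by nlinarith : t - 1 ≤ t ^ 2) (abs_nonneg β)
      linarith
    have a3 : -(|c| * t ^ 2) ≤ c * (t ^ 2 - 1) := by
      have := abs_nonneg c
      have h3 := neg_abs_le (c * (t ^ 2 - 1))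
      rw [abs_mul, abs_of_nonneg (by linarith : 0 ≤ t ^ 2 - 1)] at h3
      have h4 := mul_le_mul_of_nonneg_left (by linarith : t ^ 2 - 1 ≤ t ^ 2) (abs_nonneg c)
      linarith
    have a4 : -(|W 1| * t ^ 2) ≤ W 1 := by
      have := neg_abs_le (W 1)
      have := abs_nonneg (W 1)
      nlinarith
    have a5 : t ^ 2 * (W 1 - (M + 1)) = t ^ 2 * W 1 - (|W 1| * t ^ 2 + |β| * t ^ 2
        + |c| * t ^ 2) - t ^ 2 := by
      rw [hM]; ring
    have a6 : t ^ 2 * W 1 ≤ 0 := by nlinarith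
    linarith

end Pool.Agent.Q187.HN
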